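import Mathlib

/-!
# Exponential closedness over a curve: plane models of the curve and punctures
-/

set_option autoImplicit false

open Polynomial Set Filter Topology Metric

namespace Pool.Agent.H195Z.EC

/-- the lattice point `2 π i k` -/
noncomputable def Lk {n : ℕ} (k : Fin n → ℤ) : Fin n → ℂ :=
  fun i => 2 * Real.pi * Complex.I * (k i : ℂ)

/-- A plane model `R(t,w) = 0` of a multiplicatively free curve in the torus, with coordinates
`y i = A i (t,w) / b t`, and a polynomial `e` whose zeros are the bad values of `t`. -/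
structure Model (n : ℕ) where
  R : ℂ[X][X]
  b : ℂ[X]
  A : Fin n → ℂ[X][X]
  e : ℂ[X]
  monic : R.Monic
  irr : Irreducible R
  e_ne : e ≠ 0
  sep : ∀ t, e.eval t ≠ 0 → (R.map (evalRingHom t)).Separable
  b_ne : ∀ t, e.eval t ≠ 0 → b.eval t ≠ 0
  A_ne : ∀ t w, e.eval t ≠ 0 → R.evalEval t w = 0 → ∀ i, (A i).evalEval t w ≠ 0
  free : ∀ m : Fin n → ℤ, m ≠ 0 → ∀ c : ℂ,
    {t | e.eval t ≠ 0 ∧ ∃ w, R.evalEval t w = 0 ∧
      ∏ i, ((A i).evalEval t w / b.eval t) ^ m i = c}.Finite

variable {n : ℕ}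

/-- the good part of the plane curve -/
def Model.Γ (M : Model n) : Set (ℂ × ℂ) :=
  {q | M.e.eval q.1 ≠ 0 ∧ M.R.evalEval q.1 q.2 = 0}

/-- the map from the plane curve to the torus -/
noncomputable def Model.Y (M : Model n) (q : ℂ × ℂ) : Fin n → ℂ :=
  fun i => (M.A i).evalEval q.1 q.2 / M.b.eval q.1

/-- logarithms of points of the curve -/
def Model.X (M : Model n) : Set ((ℂ × ℂ) × (Fin n → ℂ)) :=
  {x | x.1 ∈ M.Γ ∧ ∀ i, Complex.exp (x.2 i) = M.Y x.1 i}

/-- A puncture: a Puiseux parametrisation `γ` of an end of `Γ`, in the coordinate `τ = exp s`,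
along which `y i = τ ^ (v i) * exp (a τ i)`. -/
structure Punct (M : Model n) where
  v : Fin n → ℤ
  a : ℂ → Fin n → ℂ
  γ : ℂ → ℂ × ℂ
  ha : DifferentiableOn ℂ a (ball 0 (Real.exp 2))
  hγ : DifferentiableOn ℂ γ {s | s.re < 2}
  mem : ∀ s : ℂ, s.re < 2 → (γ s, fun i => s * (v i : ℂ) + a (Complex.exp s) i) ∈ M.X
  per : ∀ s : ℂ, s.re < 2 → γ (s + 2 * Real.pi * Complex.I) = γ s
  ncst : ∀ s : ℂ, s.re < 2 → ∀ᶠ s' in 𝓝[≠] s, (γ s').1 ≠ (γ s).1
  grow : ∃ C r : ℝ, ∀ s : ℂ, s.re < 2 → ‖γ s‖ ≤ C * Real.exp (-r * s.re)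

/-- evaluation of a polynomial in `z` with coefficients in `ℂ[t][w]` -/
noncomputable def evF (F : MvPolynomial (Fin n) ℂ[X][X]) (q : ℂ × ℂ) (z : Fin n → ℂ) : ℂ :=
  MvPolynomial.eval₂ (evalEvalRingHom q.1 q.2) z F

/-- a polynomial vanishing at points of the curve over infinitely many `t` is divisible by `R` -/
theorem dens {R : ℂ[X][X]} (hm : R.Monic) (hR : Irreducible R) (g : ℂ[X][X])
    (h : {t | ∃ w, R.evalEval t w = 0 ∧ g.evalEval t w = 0}.Infinite) : R ∣ g := by
  let K := FractionRing ℂ[X]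
  let φ := algebraMap ℂ[X] K
  have hinj : Function.Injective φ := IsFractionRing.injective ℂ[X] K
  have h1 : Irreducible (R.map φ) := (hm.irreducible_iff_irreducible_map_fraction_map).1 hR
  by_cases hd : R.map φ ∣ g.map φ
  · exact (Polynomial.map_dvd_map φ hinj hm).1 hd
  exfalso
  obtain ⟨a, b, hab⟩ := (EuclideanDomain.dvd_or_coprime _ (g.map φ) h1).resolve_left hd
  obtain ⟨c, hc, hc'⟩ := IsLocalization.integerNormalization_spec (nonZeroDivisors ℂ[X]) a
  obtain ⟨d, hd, hd'⟩ := IsLocalization.integerNormalization_spec (nonZeroDivisors ℂ[X]) b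
  set A := IsLocalization.integerNormalization (nonZeroDivisors ℂ[X]) a
  set B := IsLocalization.integerNormalization (nonZeroDivisors ℂ[X]) b
  have hc'' : A.map φ = C (φ c) * a := by
    rw [hc', ← IsScalarTower.algebraMap_smul K c a, smul_eq_C_mul]
  have hd'' : B.map φ = C (φ d) * b := by
    rw [hd', ← IsScalarTower.algebraMap_smul K d b, smul_eq_C_mul]
  have key : (C d * A) * R + (C c * B) * g = C (c * d) := by
    apply Polynomial.map_injective φ hinj
    rw [Polynomial.map_add, Polynomial.map_mul, Polynomial.map_mul, Polynomial.map_mul,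
      Polynomial.map_mul, Polynomial.map_C, Polynomial.map_C, hc'', hd'', Polynomial.map_C,
      map_mul, C_mul]
    linear_combination (C (φ c) * C (φ d)) * hab
  have hcd : c * d ≠ 0 := mul_ne_zero (nonZeroDivisors.ne_zero hc) (nonZeroDivisors.ne_zero hd)
  apply h
  refine (Polynomial.finite_setOfPred_isRoot hcd).subset ?_
  rintro t ⟨w, h1, h2⟩
  have h3 := congrArg (fun p : ℂ[X][X] => p.evalEval t w) key
  simp only [evalEval_add, evalEval_mul, h1, h2, evalEval_C, mul_zero, add_zero] at h3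
  exact h3.symm

theorem Model.natDegree_pos (M : Model n) : 0 < M.R.natDegree := by
  by_contra h
  have h0 : M.R.natDegree = 0 := by omega
  have h1 := M.monic.natDegree_eq_zero.1 h0
  exact M.irr.not_isUnit (h1 ▸ isUnit_one)

/-- the model with a larger set of bad values -/
noncomputable def Model.shrink (M : Model n) (h : ℂ[X]) (hh : h ≠ 0) : Model n where
  R := M.R
  b := M.b
  A := M.A
  e := M.e * h
  monic := M.monic
  irr := M.irr
  e_ne := mul_ne_zero M.e_ne hh
  sep := fun t ht => M.sep t (by rw [eval_mul] at ht; exact left_ne_zero_of_mul ht)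
  b_ne := fun t ht => M.b_ne t (by rw [eval_mul] at ht; exact left_ne_zero_of_mul ht)
  A_ne := fun t w ht => M.A_ne t w (by rw [eval_mul] at ht; exact left_ne_zero_of_mul ht)
  free := fun m hm c => (M.free m hm c).subset (by
    rintro t ⟨ht, hw⟩
    rw [eval_mul] at ht
    exact ⟨left_ne_zero_of_mul ht, hw⟩)

end Pool.Agent.H195Z.EC
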