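import Mathlib
import Pool.Agent.H195Z.EC.Defs

set_option autoImplicit false

open Polynomial Set Filter Topology Metric

namespace Pool.Agent.H195Z.EC

variable {n : ℕ}

namespace Alg1aux

/-- integral primitive element with cleared denominators -/
lemma prim {A L : Type} [CommRing A] [IsDomain A] [CharZero A] [Field L] [Algebra A L]
    [FaithfulSMul A L] (y : Fin n → L) (halg : ∀ i, IsAlgebraic A (y i)) :
    ∃ w : L, IsIntegral A w ∧ w ∈ Subfield.closure (range (algebraMap A L) ∪ range y) ∧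
      ∀ u ∈ Subfield.closure (range (algebraMap A L) ∪ range y), ∃ (g : A[X]) (h : A), h ≠ 0 ∧
        aeval w g = algebraMap A L h * u := by
  let F := FractionRing A
  let _ : Algebra F L := FractionRing.liftAlgebra A L
  have hinj : Function.Injective (algebraMap A F) := IsFractionRing.injective A F
  have : CharZero F := (algebraMap A F).charZero_iff hinj |>.1 inferInstance
  set S := Subfield.closure (range (algebraMap A L) ∪ range y) with hS
  let K := IntermediateField.adjoin F (range y)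
  have hfd : FiniteDimensional F K := IntermediateField.finiteDimensional_adjoin (by
    rintro _ ⟨i, rfl⟩
    exact ((halg i).extendScalars hinj).isIntegral)
  have hA : ∀ a : A, algebraMap A L a ∈ S := fun a =>
    Subfield.subset_closure (Or.inl ⟨a, rfl⟩)
  have hKS : ∀ u, u ∈ K ↔ u ∈ S := by
    intro u
    constructor
    · intro hu
      have h1 : K.toSubfield ≤ S := by
        rw [IntermediateField.adjoin_toSubfield, Subfield.closure_le]
        rintro _ (⟨x, rfl⟩ | ⟨i, rfl⟩)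
        · obtain ⟨a, b, _, rfl⟩ := IsFractionRing.div_surjective A x
          rw [map_div₀, ← IsScalarTower.algebraMap_apply, ← IsScalarTower.algebraMap_apply]
          exact S.div_mem (hA a) (hA b)
        · exact Subfield.subset_closure (Or.inr ⟨i, rfl⟩)
      exact h1 hu
    · intro hu
      have h1 : S ≤ K.toSubfield := by
        rw [hS, Subfield.closure_le]
        rintro _ (⟨x, rfl⟩ | ⟨i, rfl⟩)
        · rw [IsScalarTower.algebraMap_apply A F L]
          exact K.algebraMap_mem _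
        · exact IntermediateField.subset_adjoin F _ ⟨i, rfl⟩
      exact h1 hu
  obtain ⟨α, hα⟩ := Field.exists_primitive_element F K
  have hαF : IsAlgebraic F α := IsAlgebraic.of_finite F α
  have hαL : IsAlgebraic F (α : L) := hαF.algHom K.val
  have hαA : IsAlgebraic A (α : L) := (IsFractionRing.isAlgebraic_iff A F L).2 hαL
  obtain ⟨d, hd, hw⟩ := hαA.exists_integral_multiple
  refine ⟨d • (α : L), hw, ?_, ?_⟩
  · rw [Algebra.smul_def]
    exact S.mul_mem (hA d) ((hKS _).1 α.2)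
  · intro u hu
    have hu' : (⟨u, (hKS u).2 hu⟩ : K) ∈ (IntermediateField.adjoin F {α}).toSubalgebra := by
      rw [hα]
      trivial
    rw [IntermediateField.adjoin_simple_toSubalgebra_of_isAlgebraic hαF,
      Algebra.adjoin_singleton_eq_range_aeval] at hu'
    obtain ⟨p, hp⟩ := hu'
    have hp' : aeval (α : L) p = u := by
      have h1 : K.val (aeval α p) = u := congrArg K.val hp
      rw [← h1]
      exact aeval_algHom_apply K.val α p
    have hd' : algebraMap A L d ≠ 0 := by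
      rwa [Ne, FaithfulSMul.algebraMap_eq_zero_iff]
    set q : F[X] := p.comp (C (algebraMap A F d)⁻¹ * X) with hq
    have hq' : aeval (d • (α : L)) q = u := by
      rw [hq, aeval_comp, map_mul, aeval_C, aeval_X, map_inv₀, ← IsScalarTower.algebraMap_apply,
        Algebra.smul_def, inv_mul_cancel_left₀ hd', hp']
    obtain ⟨c, hc, hc'⟩ := IsLocalization.integerNormalization_spec (nonZeroDivisors A) q
    refine ⟨IsLocalization.integerNormalization (nonZeroDivisors A) q, c,
      nonZeroDivisors.ne_zero hc, ?_⟩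
    rw [← aeval_map_algebraMap F, hc', ← IsScalarTower.algebraMap_smul F c q, map_smul, hq',
      Algebra.smul_def, ← IsScalarTower.algebraMap_apply]

lemma sep_poly (G : ℂ[X][X]) (hG : Irreducible G) (hm : G.Monic) :
    ∃ h : ℂ[X], h ≠ 0 ∧ ∀ t, h.eval t ≠ 0 → (G.map (evalRingHom t)).Separable := by
  let K := FractionRing ℂ[X]
  let φ := algebraMap ℂ[X] K
  have hinj : Function.Injective φ := IsFractionRing.injective ℂ[X] K
  have h1 : Irreducible (G.map φ) := (hm.irreducible_iff_irreducible_map_fraction_map).1 hG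
  have : CharZero K := (algebraMap ℂ[X] K).charZero_iff hinj |>.1 inferInstance
  have h2 : (G.map φ).Separable := h1.separable
  obtain ⟨a, b, hab⟩ := h2
  obtain ⟨c, hc, hc'⟩ := IsLocalization.integerNormalization_spec (nonZeroDivisors ℂ[X]) a
  obtain ⟨d, hd, hd'⟩ := IsLocalization.integerNormalization_spec (nonZeroDivisors ℂ[X]) b
  set A := IsLocalization.integerNormalization (nonZeroDivisors ℂ[X]) a
  set B := IsLocalization.integerNormalization (nonZeroDivisors ℂ[X]) b
  have key : (C d * A) * G + (C c * B) * derivative G = C (c * d) := by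
    apply Polynomial.map_injective φ hinj
    have hc'' : A.map φ = C (φ c) * a := by
      rw [hc', ← IsScalarTower.algebraMap_smul K c a, smul_eq_C_mul]
    have hd'' : B.map φ = C (φ d) * b := by
      rw [hd', ← IsScalarTower.algebraMap_smul K d b, smul_eq_C_mul]
    rw [derivative_map] at hab
    rw [Polynomial.map_add, Polynomial.map_mul, Polynomial.map_mul, Polynomial.map_mul,
      Polynomial.map_mul, Polynomial.map_C, Polynomial.map_C, hc'', hd'', Polynomial.map_C,
      map_mul, C_mul]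
    linear_combination (C (φ c) * C (φ d)) * hab
  refine ⟨c * d, mul_ne_zero (nonZeroDivisors.ne_zero hc) (nonZeroDivisors.ne_zero hd), ?_⟩
  intro s hs
  have h3 := congrArg (Polynomial.map (evalRingHom s)) key
  rw [Polynomial.map_add, Polynomial.map_mul _ (p := C d * A), Polynomial.map_mul _ (p := C c * B),
    Polynomial.map_C, ← derivative_map, coe_evalRingHom] at h3
  refine ⟨C ((c * d).eval s)⁻¹ * (C d * A).map (evalRingHom s),
    C ((c * d).eval s)⁻¹ * (C c * B).map (evalRingHom s), ?_⟩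
  rw [mul_assoc, mul_assoc, ← mul_add, h3, ← C_mul, inv_mul_cancel₀ hs, C_1]

lemma prod_zpow_iff {K : Type} [Field K] (a : Fin n → K) (b c : K) (ha : ∀ i, a i ≠ 0)
    (hb : b ≠ 0) (m : Fin n → ℤ) :
    ∏ i, (a i / b) ^ m i = c ↔ ∏ i, (a i ^ (m i).toNat * b ^ (-m i).toNat) -
      c * ∏ i, (a i ^ (-m i).toNat * b ^ (m i).toNat) = 0 := by
  have h1 : ∀ i, (a i / b) ^ m i = (a i ^ (m i).toNat * b ^ (-m i).toNat) /
      (a i ^ (-m i).toNat * b ^ (m i).toNat) := by
    intro i
    have h2 := ha i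
    conv_lhs => rw [← Int.toNat_sub_toNat_neg (m i)]
    rw [zpow_sub₀ (div_ne_zero h2 hb), zpow_natCast, zpow_natCast, div_pow, div_pow]
    field_simp
  have h3 : ∏ i, (a i ^ (-m i).toNat * b ^ (m i).toNat) ≠ 0 :=
    Finset.prod_ne_zero_iff.2 fun i _ => mul_ne_zero (pow_ne_zero _ (ha i)) (pow_ne_zero _ hb)
  simp only [h1]
  rw [Finset.prod_div_distrib, div_eq_iff h3, sub_eq_zero]

lemma main {L : Type} [Field L] [Algebra ℂ L] [Algebra ℂ[X] L] [IsScalarTower ℂ ℂ[X] L]
    [FaithfulSMul ℂ[X] L] (y : Fin n → L) (hy : ∀ i, y i ≠ 0)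
    (hX : algebraMap ℂ[X] L X ∈ range y)
    (hfree : ∀ m : Fin n → ℤ, m ≠ 0 → ∀ c : ℂ, ∏ i, y i ^ m i ≠ algebraMap ℂ L c)
    (halg : ∀ i, IsAlgebraic ℂ[X] (y i)) :
    ∃ (M : Model n) (θ : ℂ[X][X] →ₐ[ℂ] L), (∀ g, θ g = 0 ↔ M.R ∣ g) ∧
      (∀ i, θ (M.A i) = θ (C M.b) * y i) ∧
      (∀ g, θ g ∈ IntermediateField.adjoin ℂ (range y)) ∧
      (∀ u ∈ IntermediateField.adjoin ℂ (range y), ∃ (g : ℂ[X][X]) (h : ℂ[X]), h ≠ 0 ∧
        θ g = θ (C h) * u) := by
  classical
  obtain ⟨w, hw, hwS, hS⟩ := prim y halg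
  set K := IntermediateField.adjoin ℂ (range y) with hK
  have hAK : ∀ a : ℂ[X], algebraMap ℂ[X] L a ∈ K := by
    intro a
    induction a using Polynomial.induction_on' with
    | add p q hp hq => rw [map_add]; exact K.add_mem hp hq
    | monomial k c =>
      rw [← C_mul_X_pow_eq_monomial, map_mul, map_pow]
      refine K.mul_mem ?_ (pow_mem (IntermediateField.subset_adjoin ℂ _ hX) k)
      rw [← Polynomial.algebraMap_eq, ← IsScalarTower.algebraMap_apply]
      exact K.algebraMap_mem c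
  have hSK : Subfield.closure (range (algebraMap ℂ[X] L) ∪ range y) ≤ K.toSubfield := by
    rw [Subfield.closure_le]
    rintro _ (⟨x, rfl⟩ | ⟨i, rfl⟩)
    · exact hAK x
    · exact IntermediateField.subset_adjoin ℂ _ ⟨i, rfl⟩
  have hKS : K.toSubfield ≤ Subfield.closure (range (algebraMap ℂ[X] L) ∪ range y) := by
    rw [hK, IntermediateField.adjoin_toSubfield, Subfield.closure_le]
    rintro _ (⟨x, rfl⟩ | ⟨i, rfl⟩)
    · rw [IsScalarTower.algebraMap_apply ℂ ℂ[X] L]
      exact Subfield.subset_closure (Or.inl ⟨_, rfl⟩)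
    · exact Subfield.subset_closure (Or.inr ⟨i, rfl⟩)
  set θ : ℂ[X][X] →ₐ[ℂ] L := (aeval w : ℂ[X][X] →ₐ[ℂ[X]] L).restrictScalars ℂ with hθ
  have hθa : ∀ g, θ g = aeval w g := fun g => rfl
  have hθC : ∀ h : ℂ[X], θ (C h) = algebraMap ℂ[X] L h := fun h => by rw [hθa, aeval_C]
  set R := minpoly ℂ[X] w with hR
  have hm : R.Monic := minpoly.monic hw
  have hirr : Irreducible R := minpoly.irreducible hw
  have hker : ∀ g, θ g = 0 ↔ R ∣ g := fun g => minpoly.isIntegrallyClosed_dvd_iff hw g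
  have hy' : ∀ i, ∃ (g : ℂ[X][X]) (h : ℂ[X]), h ≠ 0 ∧ aeval w g = algebraMap ℂ[X] L h * y i :=
    fun i => hS _ (Subfield.subset_closure (Or.inr ⟨i, rfl⟩))
  choose g h hh hgh using hy'
  set b : ℂ[X] := ∏ i, h i with hb
  have hb0 : b ≠ 0 := Finset.prod_ne_zero_iff.2 fun i _ => hh i
  set A : Fin n → ℂ[X][X] := fun i => C (∏ j ∈ Finset.univ.erase i, h j) * g i with hA
  have hAy : ∀ i, θ (A i) = θ (C b) * y i := by
    intro i
    simp only [hA]
    rw [map_mul, hθa (g i), hgh, hθC, hθC, hb, ← Finset.prod_erase_mul _ _ (Finset.mem_univ i),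
      map_mul, mul_assoc]
  have hθb : θ (C b) ≠ 0 := by
    rwa [hθC, Ne, FaithfulSMul.algebraMap_eq_zero_iff]
  have hθA : ∀ i, θ (A i) ≠ 0 := fun i => by
    rw [hAy]
    exact mul_ne_zero hθb (hy i)
  have hfin : ∀ G : ℂ[X][X], θ G ≠ 0 →
      {t | ∃ v, R.evalEval t v = 0 ∧ G.evalEval t v = 0}.Finite := by
    intro G hG
    by_contra hinf
    exact hG ((hker G).2 (dens hm hirr G hinf))
  have hT : (⋃ i, {t | ∃ v, R.evalEval t v = 0 ∧ (A i).evalEval t v = 0}).Finite :=
    finite_iUnion fun i => hfin _ (hθA i)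
  obtain ⟨s, hs0, hs⟩ := sep_poly R hirr hm
  set p : ℂ[X] := ∏ t ∈ hT.toFinset, (X - C t) with hp
  have hp0 : p ≠ 0 := Finset.prod_ne_zero_iff.2 fun t _ => X_sub_C_ne_zero t
  have he : ∀ t, (b * s * p).eval t ≠ 0 → b.eval t ≠ 0 ∧ s.eval t ≠ 0 ∧
      ∀ v, R.evalEval t v = 0 → ∀ i, (A i).evalEval t v ≠ 0 := by
    intro t ht
    rw [eval_mul, eval_mul] at ht
    refine ⟨left_ne_zero_of_mul (left_ne_zero_of_mul ht),
      right_ne_zero_of_mul (left_ne_zero_of_mul ht), fun v hv i hi => ?_⟩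
    apply right_ne_zero_of_mul ht
    rw [hp, eval_prod]
    refine Finset.prod_eq_zero (i := t) ?_ (by simp)
    rw [Finite.mem_toFinset]
    exact mem_iUnion.2 ⟨i, v, hv, hi⟩
  refine ⟨⟨R, b, A, b * s * p, hm, hirr, mul_ne_zero (mul_ne_zero hb0 hs0) hp0,
    fun t ht => hs t (he t ht).2.1, fun t ht => (he t ht).1,
    fun t v ht hv => (he t ht).2.2 v hv, ?_⟩, θ, hker, hAy, ?_, ?_⟩
  · intro m hm0 c
    set G : ℂ[X][X] := ∏ i, (A i ^ (m i).toNat * C b ^ (-m i).toNat) -
      C (C c) * ∏ i, (A i ^ (-m i).toNat * C b ^ (m i).toNat) with hG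
    have hG0 : θ G ≠ 0 := by
      intro h0
      apply hfree m hm0 c
      have h1 := (prod_zpow_iff (fun i => θ (A i)) (θ (C b)) (algebraMap ℂ L c) hθA hθb m).2 (by
        rw [← h0, hG]
        simp only [map_sub, map_mul, map_prod, map_pow]
        rw [hθC (C c), IsScalarTower.algebraMap_apply ℂ ℂ[X] L c, Polynomial.algebraMap_eq])
      rw [← h1]
      refine Finset.prod_congr rfl fun i _ => ?_
      rw [hAy, mul_div_cancel_left₀ _ hθb]
    refine (hfin G hG0).subset ?_
    rintro t ⟨ht, v, hv, hc⟩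
    refine ⟨v, hv, ?_⟩
    have h1 := (prod_zpow_iff (fun i => (A i).evalEval t v) (b.eval t) c ((he t ht).2.2 v hv)
      (he t ht).1 m).1 hc
    rw [← h1, hG]
    simp only [evalEval_sub, evalEval_mul, evalEval_prod, evalEval_pow, evalEval_C, eval_C]
  · intro G
    rw [hθa]
    induction G using Polynomial.induction_on' with
    | add p q hp hq => rw [map_add]; exact K.add_mem hp hq
    | monomial k c =>
      rw [aeval_monomial]
      exact K.mul_mem (hAK c) (pow_mem (hSK hwS) k)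
  · intro u hu
    obtain ⟨G, k, hk, hGk⟩ := hS u (hKS hu)
    exact ⟨G, k, hk, by rw [hθa, hθC, hGk]⟩

end Alg1aux

theorem alg1 {L : Type} [Field L] [Algebra ℂ L] (hn : 0 < n) (y : Fin n → L)
    (hy : ∀ i, y i ≠ 0)
    (hfree : ∀ m : Fin n → ℤ, m ≠ 0 → ∀ c : ℂ, ∏ i, y i ^ m i ≠ algebraMap ℂ L c)
    (hdim : ∀ i j, ∃ f : MvPolynomial (Fin 2) ℂ, f ≠ 0 ∧ MvPolynomial.aeval ![y i, y j] f = 0) :
    ∃ (M : Model n) (θ : ℂ[X][X] →ₐ[ℂ] L), (∀ g, θ g = 0 ↔ M.R ∣ g) ∧
      (∀ i, θ (M.A i) = θ (C M.b) * y i) ∧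
      (∀ g, θ g ∈ IntermediateField.adjoin ℂ (range y)) ∧
      (∀ u ∈ IntermediateField.adjoin ℂ (range y), ∃ (g : ℂ[X][X]) (h : ℂ[X]), h ≠ 0 ∧
        θ g = θ (C h) * u) := by
  classical
  set i₀ : Fin n := ⟨0, hn⟩ with hi₀
  have htr : Transcendental ℂ (y i₀) := by
    intro halg
    obtain ⟨c, hc⟩ := minpoly.mem_range_of_degree_eq_one ℂ (y i₀)
      (IsAlgClosed.degree_eq_one_of_irreducible ℂ (minpoly.irreducible halg.isIntegral))
    apply hfree (Pi.single i₀ 1) (by simp) c
    rw [hc, Finset.prod_eq_single i₀]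
    · simp
    · intro j _ hj
      simp [Pi.single_eq_of_ne hj]
    · simp
  let _ : Algebra ℂ[X] L := (aeval (y i₀) : ℂ[X] →ₐ[ℂ] L).toRingHom.toAlgebra
  have hmap : ∀ a : ℂ[X], algebraMap ℂ[X] L a = aeval (y i₀) a := fun a => rfl
  have : IsScalarTower ℂ ℂ[X] L := IsScalarTower.of_algebraMap_eq fun c => by
    rw [hmap, AlgHom.commutes]
  have : FaithfulSMul ℂ[X] L := (faithfulSMul_iff_algebraMap_injective ℂ[X] L).2
    (transcendental_iff_injective.1 htr)
  refine Alg1aux.main y hy ⟨i₀, by rw [hmap, aeval_X]⟩ hfree fun i => ?_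
  obtain ⟨f, hf, hf0⟩ := hdim i₀ i
  refine ⟨(Polynomial.Bivariate.equivMvPolynomial ℂ).symm f, by simpa using hf, ?_⟩
  have key : ((aeval (y i) : ℂ[X][X] →ₐ[ℂ[X]] L).restrictScalars ℂ).comp
      (Polynomial.Bivariate.equivMvPolynomial ℂ).symm.toAlgHom =
      MvPolynomial.aeval ![y i₀, y i] := by
    apply MvPolynomial.algHom_ext
    intro j
    fin_cases j
    · simp [hmap]
    · simp
  rw [← hf0, ← key]
  rfl

end Pool.Agent.H195Z.EC
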