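import Mathlib

/-!
# Pure algebra for exponential closedness over a curve
-/

set_option autoImplicit false

open Polynomial Set

namespace Pool.Agent.H195Z.EC

variable {n : ℕ}

namespace Alg2aux

/-- the kernel of evaluation of `B[X]` at a point of a field containing the factorial ring `B`
is zero or generated by an irreducible polynomial -/
theorem ker_principal {B L : Type} [CommRing B] [IsDomain B] [UniqueFactorizationMonoid B]
    [Field L] [Algebra B L] [FaithfulSMul B L] (a : L) :
    ∃ F : B[X], (F = 0 ∨ Irreducible F) ∧ ∀ g : B[X], aeval a g = 0 ↔ F ∣ g := by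
  classical
  by_cases h0 : RingHom.ker (aeval a : B[X] →ₐ[B] L) = ⊥
  · refine ⟨0, Or.inl rfl, fun g => ?_⟩
    rw [zero_dvd_iff, ← RingHom.mem_ker, h0, Ideal.mem_bot]
  · have hp : (RingHom.ker (aeval a : B[X] →ₐ[B] L)).IsPrime := RingHom.ker_isPrime _
    obtain ⟨F, hF, hFp⟩ := hp.exists_mem_prime_of_ne_bot h0
    rw [RingHom.mem_ker] at hF
    have hirr : Irreducible F := hFp.irreducible
    have hdeg : F.natDegree ≠ 0 := by
      intro hd
      rw [natDegree_eq_zero] at hd
      obtain ⟨c, rfl⟩ := hd
      rw [aeval_C, map_eq_zero_iff _ (FaithfulSMul.algebraMap_injective B L)] at hF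
      exact hFp.ne_zero (by simp [hF])
    have hprim : F.IsPrimitive := hirr.isPrimitive hdeg
    let : Algebra (FractionRing B) L := FractionRing.liftAlgebra B L
    have : IsScalarTower B (FractionRing B) L := FractionRing.isScalarTower_liftAlgebra B L
    have hirr' : Irreducible (F.map (algebraMap B (FractionRing B))) :=
      hprim.irreducible_iff_irreducible_map_fraction_map.1 hirr
    refine ⟨F, Or.inr hirr, fun g => ?_⟩
    rw [hprim.dvd_iff_fraction_map_dvd_fraction_map (FractionRing B),
      ← hirr'.dvd_iff_aeval_eq_zero (b := a) (by rw [aeval_map_algebraMap]; exact hF),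
      aeval_map_algebraMap]

end Alg2aux

theorem alg2 {K L : Type} [Field K] [Field L] [Algebra K L] (x : Fin n → L) (i₀ : Fin n)
    (hx : AlgebraicIndependent K (fun i : {i : Fin n // i ≠ i₀} => x i)) :
    ∃ F : MvPolynomial (Fin n) K, (F = 0 ∨ Irreducible F) ∧
      ∀ g : MvPolynomial (Fin n) K, MvPolynomial.aeval x g = 0 ↔ F ∣ g := by
  classical
  let φ : MvPolynomial {i : Fin n // i ≠ i₀} K →ₐ[K] L :=
    MvPolynomial.aeval (fun i : {i : Fin n // i ≠ i₀} => x i)
  let : Algebra (MvPolynomial {i : Fin n // i ≠ i₀} K) L := φ.toRingHom.toAlgebra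
  have : FaithfulSMul (MvPolynomial {i : Fin n // i ≠ i₀} K) L :=
    (faithfulSMul_iff_algebraMap_injective _ _).2 hx
  obtain ⟨F, hF, hker⟩ :=
    Alg2aux.ker_principal (B := MvPolynomial {i : Fin n // i ≠ i₀} K) (x i₀)
  let e : MvPolynomial (Fin n) K ≃ₐ[K] (MvPolynomial {i : Fin n // i ≠ i₀} K)[X] :=
    (MvPolynomial.renameEquiv K (Equiv.optionSubtypeNe i₀).symm).trans
      (MvPolynomial.optionEquivLeft K _)
  have key : ∀ g : MvPolynomial (Fin n) K,
      MvPolynomial.aeval x g = Polynomial.aeval (x i₀) (e g) := by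
    intro g
    induction g using MvPolynomial.induction_on with
    | C c =>
      have : e (MvPolynomial.C c) = Polynomial.C (MvPolynomial.C c) := by
        simp [e, MvPolynomial.optionEquivLeft_C]
      rw [this, aeval_C]
      change _ = φ (MvPolynomial.C c)
      simp [φ]
    | add p q hp hq => simp [hp, hq]
    | mul_X p i hp =>
      rw [map_mul, map_mul, map_mul, hp]
      congr 1
      by_cases hi : i = i₀
      · subst hi
        have : e (MvPolynomial.X i) = Polynomial.X := by
          simp [e, MvPolynomial.optionEquivLeft_X_none]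
        rw [this]; simp
      · have : e (MvPolynomial.X i) = Polynomial.C (MvPolynomial.X ⟨i, hi⟩) := by
          simp [e, Equiv.optionSubtypeNe_symm_of_ne hi, MvPolynomial.optionEquivLeft_X_some]
        rw [this, aeval_C]
        change _ = φ (MvPolynomial.X ⟨i, hi⟩)
        simp [φ]
  refine ⟨e.symm F, ?_, fun g => ?_⟩
  · rcases hF with rfl | hF
    · left; simp
    · right; exact (MulEquiv.irreducible_iff e.symm).2 hF
  · rw [key, hker]
    constructor
    · intro h
      have := map_dvd e.symm h
      simpa using this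
    · intro h
      have := map_dvd e h
      simpa using this

theorem alg2b {k K L : Type} [Field k] [Field K] [Field L] [Algebra k K] [Algebra K L]
    [Algebra k L] [IsScalarTower k K L] (hn : 0 < n) (x : Fin n → L) (y : Fin n → K) (t : K)
    (hK : Algebra.IsAlgebraic (Algebra.adjoin k {t}) K) (J : Finset (Fin n ⊕ Fin n))
    (hJ : n ≤ J.card)
    (hind : AlgebraicIndependent k
      (fun j : J => Sum.elim x (fun i => algebraMap K L (y i)) (j : Fin n ⊕ Fin n))) :
    ∃ i₀ : Fin n, AlgebraicIndependent K (fun i : {i : Fin n // i ≠ i₀} => x i) := by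
  classical
  let A : Subalgebra K L := Algebra.adjoin K (range x)
  let x' : Fin n → A := fun i => ⟨x i, Algebra.subset_adjoin (mem_range_self i)⟩
  have htop : Algebra.adjoin K (range x') = ⊤ := by
    have := Algebra.adjoin_adjoin_coe_preimage (R := K) (s := range x)
    rw [← this]
    congr 1
    ext a
    constructor
    · rintro ⟨i, rfl⟩
      exact ⟨i, rfl⟩
    · rintro ⟨i, hi⟩
      exact ⟨i, Subtype.ext hi⟩
  have halg : Algebra.IsAlgebraic (Algebra.adjoin K (range x')) A := by
    refine ⟨fun a => ?_⟩
    exact isAlgebraic_algebraMap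
      (⟨a, by rw [htop]; trivial⟩ : Algebra.adjoin K (range x'))
  obtain ⟨s, hs, hb⟩ := exists_isTranscendenceBasis_subset (R := K) (range x')
  have h1 : Algebra.trdeg k K ≤ 1 := by
    have := Algebra.IsAlgebraic.trdeg_le_cardinalMk k ({t} : Set K)
    simpa using this
  let z : J → A := fun j => Sum.elim x' (fun i => algebraMap K A (y i)) (j : Fin n ⊕ Fin n)
  have hz : AlgebraicIndependent k z := by
    refine AlgebraicIndependent.of_comp (A.val.restrictScalars k) ?_
    convert hind using 1
    funext j
    obtain ⟨j, hj⟩ := j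
    cases j with
    | inl i => rfl
    | inr i => rfl
  have h2 : (n : Cardinal) ≤ Algebra.trdeg k A := by
    refine le_trans ?_ hz.cardinalMk_le_trdeg
    simp only [Cardinal.mk_fintype, Fintype.card_coe]
    exact_mod_cast hJ
  have h3 := trdeg_add_eq k K (A := A)
  have hfin : s.Finite := (finite_range x').subset hs
  let _ : Fintype s := hfin.fintype
  have h4 : n ≤ 1 + Fintype.card s := by
    have : (n : Cardinal) ≤ 1 + Cardinal.mk s := by
      rw [hb.cardinalMk_eq_trdeg]
      exact h2.trans (h3 ▸ add_le_add_left h1 _)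
    rw [Cardinal.mk_fintype] at this
    exact_mod_cast this
  choose σ hσ using fun a : s => hs a.2
  have hσi : Function.Injective σ := by
    intro a b hab
    apply Subtype.ext
    rw [← hσ a, ← hσ b, hab]
  have h5 : ∃ i₀ : Fin n, ∀ i, i ≠ i₀ → i ∈ range σ := by
    by_cases hsurj : ∀ i, i ∈ range σ
    · exact ⟨⟨0, hn⟩, fun i _ => hsurj i⟩
    · push Not at hsurj
      obtain ⟨i₀, hi₀⟩ := hsurj
      refine ⟨i₀, fun i hi => ?_⟩
      by_contra hi'
      have hsub : Finset.univ.image σ ⊆ (Finset.univ.erase i₀).erase i := by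
        intro j hj
        obtain ⟨a, -, rfl⟩ := Finset.mem_image.1 hj
        refine Finset.mem_erase.2 ⟨fun h => hi' ⟨a, h⟩,
          Finset.mem_erase.2 ⟨fun h => hi₀ ⟨a, h⟩, Finset.mem_univ _⟩⟩
      have hc := Finset.card_le_card hsub
      rw [Finset.card_image_of_injective _ hσi,
        Finset.card_erase_of_mem (Finset.mem_erase.2 ⟨hi, Finset.mem_univ _⟩),
        Finset.card_erase_of_mem (Finset.mem_univ _)] at hc
      simp only [Finset.card_univ, Fintype.card_fin] at hc
      have h2n : 2 ≤ n := by
        have := Finset.card_le_card (Finset.subset_univ ({i, i₀} : Finset (Fin n)))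
        rw [Finset.card_pair hi] at this
        simpa using this
      omega
  obtain ⟨i₀, hi₀⟩ := h5
  refine ⟨i₀, ?_⟩
  choose τ hτ using fun i : {i : Fin n // i ≠ i₀} => hi₀ i.1 i.2
  have hτi : Function.Injective τ := by
    intro a b hab
    apply Subtype.ext
    rw [← hτ a, ← hτ b, hab]
  have := (hb.1.comp τ hτi).map' (f := A.val) Subtype.val_injective
  convert this using 1
  funext i
  change x i = ((τ i : A) : L)
  rw [← hσ (τ i), hτ i]

theorem alg2c {K : Type} [Field K] [Algebra ℂ K] (F : MvPolynomial (Fin n) K) (m : Fin n → ℤ)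
    (hm : m ≠ 0) (c : ℂ)
    (h : ∀ z : Fin n → ℂ, ∑ i, (m i : ℂ) * z i = c →
      MvPolynomial.eval (fun i => algebraMap ℂ K (z i)) F = 0) :
    (∑ i, MvPolynomial.C (m i : K) * MvPolynomial.X i - MvPolynomial.C (algebraMap ℂ K c)) ∣ F := by
  classical
  obtain ⟨i₀, hi₀⟩ : ∃ i, m i ≠ 0 := by
    by_contra hc
    push Not at hc
    exact hm (funext hc)
  have : CharZero K := charZero_of_injective_algebraMap (algebraMap ℂ K).injective
  have hmC : (m i₀ : ℂ) ≠ 0 := by exact_mod_cast hi₀
  have hmK : (m i₀ : K) ≠ 0 := by exact_mod_cast hi₀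
  set ℓ : MvPolynomial (Fin n) K :=
    ∑ i, MvPolynomial.C (m i : K) * MvPolynomial.X i - MvPolynomial.C (algebraMap ℂ K c) with hℓ
  let ψ : Fin n → MvPolynomial (Fin n) K := fun i =>
    if i = i₀ then MvPolynomial.X i - MvPolynomial.C ((m i₀ : K)⁻¹) * ℓ else MvPolynomial.X i
  have hdiv : ∀ G : MvPolynomial (Fin n) K, ℓ ∣ G - MvPolynomial.aeval ψ G := by
    intro G
    induction G using MvPolynomial.induction_on with
    | C a => simp
    | add p q hp hq =>
      have := dvd_add hp hq
      convert this using 1
      rw [map_add]; ring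
    | mul_X p i hp =>
      have hX : ℓ ∣ MvPolynomial.X i - ψ i := by
        by_cases hi : i = i₀
        · simp [ψ, hi]
        · simp [ψ, hi]
      have := dvd_add (hp.mul_right (MvPolynomial.X i)) (hX.mul_left (MvPolynomial.aeval ψ p))
      convert this using 1
      rw [map_mul, MvPolynomial.aeval_X]; ring
  have hzero : MvPolynomial.aeval ψ F = 0 := by
    refine MvPolynomial.funext_set (fun _ => range (algebraMap ℂ K))
      (fun _ => infinite_range_of_injective (algebraMap ℂ K).injective) fun w hw => ?_
    choose z hz using fun i => hw i (mem_univ i)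
    let S : ℂ := ∑ i, (m i : ℂ) * z i - c
    let z' : Fin n → ℂ := fun i => if i = i₀ then z i - (m i₀ : ℂ)⁻¹ * S else z i
    have hz' : ∑ i, (m i : ℂ) * z' i = c := by
      have : ∀ i, (m i : ℂ) * z' i = (m i : ℂ) * z i - if i = i₀ then S else 0 := by
        intro i
        by_cases hi : i = i₀
        · subst hi
          simp only [z', if_true]
          field_simp
        · simp [z', hi]
      simp only [this, Finset.sum_sub_distrib, Finset.sum_ite_eq', Finset.mem_univ, if_true, S]
      ring
    have hℓw : MvPolynomial.eval w ℓ = algebraMap ℂ K S := by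
      simp [hℓ, S, ← hz]
    have := h z' hz'
    have hcomp : ∀ G : MvPolynomial (Fin n) K, MvPolynomial.eval w (MvPolynomial.aeval ψ G) =
        MvPolynomial.eval (fun i => MvPolynomial.eval w (ψ i)) G := by
      intro G
      induction G using MvPolynomial.induction_on with
      | C a => simp
      | add p q hp hq => rw [map_add, map_add, map_add, hp, hq]
      | mul_X p i hp => rw [map_mul, map_mul, map_mul, hp]; simp
    rw [map_zero, ← this, hcomp]
    congr 2
    funext i
    by_cases hi : i = i₀
    · subst hi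
      simp [ψ, z', hℓw, hz]
    · simp [ψ, z', hi, hz]
  have := hdiv F
  rwa [hzero, sub_zero] at this

end Pool.Agent.H195Z.EC
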