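import Pool.Agent.H195Z.EC.Defs
import Pool.Agent.H195Z.EC.Alg2

/-!
# From a prime ideal to a plane model and one equation
-/

set_option autoImplicit false

open Polynomial Set Filter Topology Metric

namespace Pool.Agent.H195Z.EC

variable {n : ℕ}

namespace A3

lemma prod_zpow_eq {F : Type} [Field F] (a : Fin n → F) (ha : ∀ i, a i ≠ 0) (m : Fin n → ℤ)
    (c : F) : ∏ i, a i ^ m i = c ↔ ∏ i, a i ^ (m i).toNat = c * ∏ i, a i ^ (-m i).toNat := by
  have h1 : ∏ i, a i ^ (m i).toNat = (∏ i, a i ^ m i) * ∏ i, a i ^ (-m i).toNat := by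
    rw [← Finset.prod_mul_distrib]
    refine Finset.prod_congr rfl fun i _ => ?_
    rw [← zpow_natCast, ← zpow_natCast, ← zpow_add₀ (ha i)]
    congr 1
    omega
  have h2 : ∏ i, a i ^ (-m i).toNat ≠ 0 := Finset.prod_ne_zero_iff.2 fun i _ => pow_ne_zero _ (ha i)
  rw [h1]
  exact (mul_left_inj' h2).symm

lemma bridge (P : Ideal (MvPolynomial (Fin n ⊕ Fin n) ℂ))
    (V : Set (Fin n ⊕ Fin n → ℂ)) (hP : P.IsPrime)
    (hV : V = {p | (∀ f ∈ P, MvPolynomial.eval p f = 0) ∧ ∀ j : Fin n, p (Sum.inr j) ≠ 0})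
    (hne : V.Nonempty) (f : MvPolynomial (Fin n ⊕ Fin n) ℂ)
    (hf : ∀ p ∈ V, MvPolynomial.eval p f = 0) : f ∈ P := by
  have h1 : f * ∏ j, MvPolynomial.X (Sum.inr j) ∈ P := by
    rw [← hP.radical, ← MvPolynomial.vanishingIdeal_zeroLocus_eq_radical (K := ℂ),
      MvPolynomial.mem_vanishingIdeal_iff]
    intro p hp
    rw [MvPolynomial.aeval_eq_eval, map_mul, map_prod]
    by_cases h : ∀ j, p (Sum.inr j) ≠ 0
    · rw [hf p (by rw [hV]; exact ⟨fun g hg => by simpa using hp g hg, h⟩), zero_mul]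
    · push Not at h
      obtain ⟨j, hj⟩ := h
      rw [Finset.prod_eq_zero (Finset.mem_univ j) (by simpa using hj), mul_zero]
  refine (hP.mem_or_mem h1).resolve_right fun h => ?_
  obtain ⟨p, hp⟩ := hne
  rw [hV] at hp
  have h2 := hp.1 _ h
  rw [map_prod, Finset.prod_eq_zero_iff] at h2
  obtain ⟨j, -, hj⟩ := h2
  exact hp.2 j (by simpa using hj)

lemma exists_zero (G : MvPolynomial (Fin n) ℂ) (a : Fin n →₀ ℕ) (ha : a ≠ 0)
    (h : G.coeff a ≠ 0) : ∃ z, MvPolynomial.eval z G = 0 := by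
  by_contra hz
  push Not at hz
  have h1 : (1 : MvPolynomial (Fin n) ℂ) ∈ (Ideal.span {G}).radical := by
    rw [← MvPolynomial.vanishingIdeal_zeroLocus_eq_radical (K := ℂ),
      MvPolynomial.mem_vanishingIdeal_iff]
    intro p hp
    exact absurd (by simpa using hp G (Ideal.mem_span_singleton_self G)) (hz p)
  rw [← Ideal.eq_top_iff_one, Ideal.radical_eq_top, Ideal.span_singleton_eq_top,
    MvPolynomial.isUnit_iff_eq_C_of_isReduced] at h1
  obtain ⟨r, -, rfl⟩ := h1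
  rw [MvPolynomial.coeff_C, if_neg ha.symm] at h
  exact h rfl

lemma evF_eq (F : MvPolynomial (Fin n) ℂ[X][X]) (q : ℂ × ℂ) (z : Fin n → ℂ) :
    evF F q z = MvPolynomial.eval₂Hom (evalEvalRingHom q.1 q.2) z F := rfl

lemma exists_pt (M : Model n) (g : ℂ[X][X]) (hg : ¬ M.R ∣ g) :
    ∃ q ∈ M.Γ, g.evalEval q.1 q.2 ≠ 0 := by
  by_contra hq
  push Not at hq
  refine hg (dens M.monic M.irr g ?_)
  refine (Polynomial.finite_setOfPred_isRoot M.e_ne).infinite_compl.mono fun t ht => ?_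
  have h1 : (M.R.map (evalRingHom t)).degree ≠ 0 := by
    rw [M.monic.degree_map, degree_eq_natDegree M.monic.ne_zero]
    exact_mod_cast M.natDegree_pos.ne'
  obtain ⟨w, hw⟩ := IsAlgClosed.exists_root _ h1
  have h2 : M.R.evalEval t w = 0 := by
    rw [← map_evalRingHom_eval]; exact hw
  exact ⟨w, h2, hq (t, w) ⟨ht, h2⟩⟩

section K

variable {K : Type} [Field K] [Algebra ℂ K] (M : Model n) (θ : ℂ[X][X] →ₐ[ℂ] K)

lemma C_ne (hker : ∀ g, θ g = 0 ↔ M.R ∣ g) {h : ℂ[X]} (hh : h ≠ 0) : θ (C h) ≠ 0 := by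
  rw [Ne, hker]
  intro hd
  have := natDegree_le_of_dvd hd (C_ne_zero.2 hh)
  rw [natDegree_C] at this
  have := M.natDegree_pos
  omega

lemma algebraic (hker : ∀ g, θ g = 0 ↔ M.R ∣ g)
    (hsurj : ∀ u : K, ∃ (g : ℂ[X][X]) (h : ℂ[X]), h ≠ 0 ∧ θ g = θ (C h) * u) :
    Algebra.IsAlgebraic (Algebra.adjoin ℂ {θ (C X)}) K := by
  set B := Algebra.adjoin ℂ {θ (C X)} with hB
  have h1 : ∀ h : ℂ[X], θ (C h) ∈ B := by
    intro h
    induction h using Polynomial.induction_on with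
    | C a =>
      have : θ (C (C a)) = algebraMap ℂ K a := θ.commutes a
      rw [this]; exact B.algebraMap_mem a
    | add p q hp hq => rw [map_add, map_add]; exact B.add_mem hp hq
    | monomial k a ih =>
      rw [pow_succ, ← mul_assoc, map_mul, map_mul]
      exact B.mul_mem ih (Algebra.self_mem_adjoin_singleton ℂ _)
  let ρ : ℂ[X] →+* B := ((θ : ℂ[X][X] →+* K).comp C).codRestrict B h1
  have hρ : ∀ g : ℂ[X][X], aeval (θ X) (g.map ρ) = θ g := by
    intro g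
    induction g using Polynomial.induction_on with
    | C a => rw [map_C, aeval_C]; rfl
    | add p q hp hq => rw [Polynomial.map_add, map_add, map_add, hp, hq]
    | monomial k a ih =>
      rw [pow_succ, ← mul_assoc, Polynomial.map_mul, map_mul, ih, map_X, aeval_X, map_mul θ _ X]
  have h2 : IsIntegral B (θ X) :=
    ⟨M.R.map ρ, M.monic.map ρ, by rw [← aeval_def, hρ, hker]⟩
  have h3 : ∀ g, IsIntegral B (θ g) := by
    intro g
    have h : IsIntegral B (aeval (θ X) (g.map ρ)) :=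
      adjoin_le_integralClosure h2 (aeval_mem_adjoin_singleton B (θ X))
    exact hρ g ▸ h
  refine ⟨fun u => ?_⟩
  obtain ⟨g, h, hh, hg⟩ := hsurj u
  have h4 : ρ h ≠ 0 := fun h0 => C_ne M θ hker hh (congrArg Subtype.val h0)
  refine IsAlgebraic.of_smul (mem_nonZeroDivisors_of_ne_zero h4) ?_
  have h5 : ρ h • u = θ g := by rw [hg]; rfl
  rw [h5]
  exact (h3 g).isAlgebraic

lemma clear (hsurj : ∀ u : K, ∃ (g : ℂ[X][X]) (h : ℂ[X]), h ≠ 0 ∧ θ g = θ (C h) * u)
    (G : MvPolynomial (Fin n) K) : ∃ (G' : MvPolynomial (Fin n) ℂ[X][X]) (h : ℂ[X]), h ≠ 0 ∧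
      MvPolynomial.map (θ : ℂ[X][X] →+* K) G' = MvPolynomial.C (θ (C h)) * G := by
  induction G using MvPolynomial.induction_on with
  | C u =>
    obtain ⟨g, h, hh, hg⟩ := hsurj u
    exact ⟨MvPolynomial.C g, h, hh, by rw [MvPolynomial.map_C, ← map_mul, ← hg]; rfl⟩
  | add p q hp hq =>
    obtain ⟨p', h1, hh1, hp'⟩ := hp
    obtain ⟨q', h2, hh2, hq'⟩ := hq
    refine ⟨MvPolynomial.C (C h2) * p' + MvPolynomial.C (C h1) * q', h1 * h2,
      mul_ne_zero hh1 hh2, ?_⟩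
    simp only [map_add, map_mul, hp', hq', MvPolynomial.map_C, RingHom.coe_coe]
    ring
  | mul_X p i hp =>
    obtain ⟨p', h1, hh1, hp'⟩ := hp
    refine ⟨p' * MvPolynomial.X i, h1, hh1, ?_⟩
    rw [map_mul, hp', MvPolynomial.map_X, mul_assoc]

lemma lift (y : Fin n → K) (hA : ∀ i, θ (M.A i) = θ (C M.b) * y i)
    (f : MvPolynomial (Fin n ⊕ Fin n) ℂ) : ∃ (N : ℕ) (f' : MvPolynomial (Fin n) ℂ[X][X]),
      MvPolynomial.map (θ : ℂ[X][X] →+* K) f' = MvPolynomial.C (θ (C M.b)) ^ N *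
        MvPolynomial.aeval (Sum.elim MvPolynomial.X fun i => MvPolynomial.C (y i)) f ∧
      ∀ (q : ℂ × ℂ) (z : Fin n → ℂ), M.b.eval q.1 ≠ 0 →
        evF f' q z = M.b.eval q.1 ^ N * MvPolynomial.eval (Sum.elim z (M.Y q)) f := by
  induction f using MvPolynomial.induction_on with
  | C a =>
    refine ⟨0, MvPolynomial.C (C (C a)), ?_, fun q z _ => ?_⟩
    · have : θ (C (C a)) = algebraMap ℂ K a := θ.commutes a
      rw [MvPolynomial.map_C, pow_zero, one_mul, MvPolynomial.aeval_C, RingHom.coe_coe, this]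
      rfl
    · simp [evF_eq]
  | add p q hp hq =>
    obtain ⟨N1, p', hp1, hp2⟩ := hp
    obtain ⟨N2, q', hq1, hq2⟩ := hq
    refine ⟨N1 + N2, MvPolynomial.C (C M.b) ^ N2 * p' + MvPolynomial.C (C M.b) ^ N1 * q', ?_,
      fun r z hb => ?_⟩
    · simp only [map_add, map_mul, map_pow, hp1, hq1, MvPolynomial.map_C, RingHom.coe_coe]
      ring
    · have h1 := hp2 r z hb
      have h2 := hq2 r z hb
      simp only [evF_eq] at h1 h2 ⊢
      simp only [map_add, map_mul, map_pow, h1, h2, MvPolynomial.eval₂Hom_C, coe_evalEvalRingHom,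
        evalEval_C]
      ring
  | mul_X p j hp =>
    obtain ⟨N, p', hp1, hp2⟩ := hp
    rcases j with i | i
    · refine ⟨N, p' * MvPolynomial.X i, ?_, fun r z hb => ?_⟩
      · simp only [map_mul, hp1, MvPolynomial.map_X, MvPolynomial.aeval_X, Sum.elim_inl]
        ring
      · have h1 := hp2 r z hb
        simp only [evF_eq] at h1 ⊢
        simp only [map_mul, h1, MvPolynomial.eval₂Hom_X', MvPolynomial.eval_X, Sum.elim_inl]
        ring
    · refine ⟨N + 1, p' * MvPolynomial.C (M.A i), ?_, fun r z hb => ?_⟩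
      · simp only [map_mul, hp1, MvPolynomial.map_C, MvPolynomial.aeval_X, Sum.elim_inr,
          RingHom.coe_coe, hA]
        ring
      · have h1 := hp2 r z hb
        simp only [evF_eq] at h1 ⊢
        simp only [map_mul, h1, MvPolynomial.eval₂Hom_C, MvPolynomial.eval_X, Sum.elim_inr,
          coe_evalEvalRingHom, Model.Y]
        field_simp
        ring

lemma red (hker : ∀ g, θ g = 0 ↔ M.R ∣ g) (G : MvPolynomial (Fin n) ℂ[X][X])
    (hG : MvPolynomial.map (θ : ℂ[X][X] →+* K) G = 0) (q : ℂ × ℂ)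
    (hq : M.R.evalEval q.1 q.2 = 0) (z : Fin n → ℂ) : evF G q z = 0 := by
  unfold evF
  rw [MvPolynomial.eval₂_eq]
  refine Finset.sum_eq_zero fun d _ => ?_
  have h1 : θ (G.coeff d) = 0 := by
    have := congrArg (MvPolynomial.coeff d) hG
    rwa [MvPolynomial.coeff_map] at this
  obtain ⟨u, hu⟩ := (hker _).1 h1
  rw [hu, coe_evalEvalRingHom, evalEval_mul, hq, zero_mul, zero_mul]

lemma unred (hker : ∀ g, θ g = 0 ↔ M.R ∣ g) (G : MvPolynomial (Fin n) ℂ[X][X]) (z : Fin n → ℂ)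
    (hG : ∀ q ∈ M.Γ, evF G q z = 0) : MvPolynomial.eval (fun i => algebraMap ℂ K (z i))
      (MvPolynomial.map (θ : ℂ[X][X] →+* K) G) = 0 := by
  have h1 : ∀ G : MvPolynomial (Fin n) ℂ[X][X],
      θ (MvPolynomial.eval (fun i => C (C (z i))) G) =
        MvPolynomial.eval (fun i => algebraMap ℂ K (z i))
          (MvPolynomial.map (θ : ℂ[X][X] →+* K) G) ∧ ∀ q : ℂ × ℂ,
      (MvPolynomial.eval (fun i => C (C (z i))) G).evalEval q.1 q.2 = evF G q z := by
    intro G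
    induction G using MvPolynomial.induction_on with
    | C a => simp [evF_eq]
    | add p q hp hq =>
      refine ⟨by simp only [map_add, hp.1, hq.1], fun r => ?_⟩
      rw [map_add, evalEval_add, hp.2, hq.2, evF_eq, evF_eq, evF_eq, map_add]
    | mul_X p i hp =>
      have : θ (C (C (z i))) = algebraMap ℂ K (z i) := θ.commutes _
      refine ⟨by simp only [map_mul, hp.1, MvPolynomial.eval_X, MvPolynomial.map_X, this],
        fun r => ?_⟩
      rw [map_mul, evalEval_mul, hp.2, evF_eq, evF_eq, map_mul]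
      simp
  rw [← (h1 G).1, hker]
  by_contra hd
  obtain ⟨q, hq, h⟩ := exists_pt M _ hd
  exact h (((h1 G).2 q).trans (hG q hq))

lemma core (hker : ∀ g, θ g = 0 ↔ M.R ∣ g)
    (hsurj : ∀ u : K, ∃ (g : ℂ[X][X]) (h : ℂ[X]), h ≠ 0 ∧ θ g = θ (C h) * u)
    (y : Fin n → K) (hA : ∀ i, θ (M.A i) = θ (C M.b) * y i)
    (P : Ideal (MvPolynomial (Fin n ⊕ Fin n) ℂ)) (FK : MvPolynomial (Fin n) K)
    (hF : FK = 0 ∨ Irreducible FK)
    (hPF : ∀ f ∈ P, FK ∣
      MvPolynomial.aeval (Sum.elim MvPolynomial.X fun i => MvPolynomial.C (y i)) f)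
    (hadd : ∀ m : Fin n → ℤ, m ≠ 0 → ∀ c : ℂ, ¬ FK ∣
      (∑ i, MvPolynomial.C (m i : K) * MvPolynomial.X i - MvPolynomial.C (algebraMap ℂ K c))) :
    ∃ (M : Model n) (F : MvPolynomial (Fin n) ℂ[X][X]),
      (∀ q ∈ M.Γ, ∀ z, evF F q z = 0 → ∀ f ∈ P, MvPolynomial.eval (Sum.elim z (M.Y q)) f = 0) ∧
      ((∀ q ∈ M.Γ, ∀ z, evF F q z = 0) ∨
        ((∃ q ∈ M.Γ, ∃ z, evF F q z = 0) ∧ ∀ m : Fin n → ℤ, m ≠ 0 → ∀ c : ℂ,
          ∃ q ∈ M.Γ, ∃ z : Fin n → ℂ, ∑ i, (m i : ℂ) * z i = c ∧ evF F q z ≠ 0)) := by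
  classical
  obtain ⟨F, h1, hh1, hF1⟩ := clear θ hsurj FK
  have hgen : ∀ f ∈ P, ∃ h : ℂ[X], h ≠ 0 ∧ ∀ q ∈ M.Γ, h.eval q.1 ≠ 0 → ∀ z, evF F q z = 0 →
      MvPolynomial.eval (Sum.elim z (M.Y q)) f = 0 := by
    intro f hf
    obtain ⟨H, hH⟩ := hPF f hf
    obtain ⟨H', h2, hh2, hH'⟩ := clear θ hsurj H
    obtain ⟨N, f', hf1, hf2⟩ := lift M θ y hA f
    refine ⟨h1 * h2, mul_ne_zero hh1 hh2, fun q hq hh z hz => ?_⟩
    have hb := M.b_ne _ hq.1
    have h3 := red M θ hker (MvPolynomial.C (C (h1 * h2)) * f' -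
      MvPolynomial.C (C M.b) ^ N * F * H') (by
        simp only [map_sub, map_mul, map_pow, hf1, hF1, hH', hH, MvPolynomial.map_C,
          RingHom.coe_coe]
        ring) q hq.2 z
    have h4 := hf2 q z hb
    simp only [evF_eq] at h3 h4 hz
    simp only [map_sub, map_mul (MvPolynomial.eval₂Hom _ _), hz, h4, MvPolynomial.eval₂Hom_C,
      coe_evalEvalRingHom, evalEval_C, mul_zero, zero_mul, sub_zero] at h3
    exact (mul_eq_zero.1 ((mul_eq_zero.1 h3).resolve_left hh)).resolve_left (pow_ne_zero _ hb)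
  choose! hh hh0 hhP using hgen
  obtain ⟨s, hs⟩ : P.FG := (isNoetherianRing_iff_ideal_fg _).1 inferInstance P
  have hsP : ∀ f ∈ s, f ∈ P := fun f hf => hs ▸ Ideal.subset_span hf
  have he : ∏ f ∈ s, hh f ≠ 0 := Finset.prod_ne_zero_iff.2 fun f hf => hh0 f (hsP f hf)
  have hker' : ∀ g, θ g = 0 ↔ (M.shrink _ he).R ∣ g := hker
  refine ⟨M.shrink _ he, F, fun q hq z hz f hf => ?_, ?_⟩
  · have hq1 : M.e.eval q.1 * (∏ f ∈ s, hh f).eval q.1 ≠ 0 := by
      rw [← eval_mul]; exact hq.1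
    have hq2 : q ∈ M.Γ := ⟨left_ne_zero_of_mul hq1, hq.2⟩
    have hq3 := right_ne_zero_of_mul hq1
    rw [eval_prod, Finset.prod_ne_zero_iff] at hq3
    have : P ≤ RingHom.ker (MvPolynomial.eval (Sum.elim z (M.Y q))) := by
      rw [← hs, Ideal.span_le]
      exact fun g hg => hhP g (hsP g hg) q hq2 (hq3 g hg) z hz
    exact this hf
  rcases hF with rfl | hF
  · exact Or.inl fun q hq z => red M θ hker F (by rw [hF1, mul_zero]) q hq.2 z
  have hC := C_ne M θ hker hh1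
  refine Or.inr ⟨?_, fun m hm c => ?_⟩
  · obtain ⟨a, ha, ha'⟩ : ∃ a, a ≠ 0 ∧ FK.coeff a ≠ 0 := by
      by_contra hc
      push Not at hc
      have h2 : FK = MvPolynomial.C (FK.coeff 0) := by
        ext a
        rw [MvPolynomial.coeff_C]
        split_ifs with h
        · rw [h]
        · exact hc a (Ne.symm h)
      by_cases h3 : FK.coeff 0 = 0
      · rw [h3, map_zero] at h2
        exact hF.ne_zero h2
      · exact hF.not_isUnit (h2 ▸ (IsUnit.mk0 _ h3).map MvPolynomial.C)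
    have h2 : ¬ (M.shrink _ he).R ∣ F.coeff a := by
      rw [← hker']
      have := congrArg (MvPolynomial.coeff a) hF1
      rw [MvPolynomial.coeff_map, MvPolynomial.coeff_C_mul, RingHom.coe_coe] at this
      rw [this]
      exact mul_ne_zero hC ha'
    obtain ⟨q, hq, h3⟩ := exists_pt _ _ h2
    obtain ⟨z, hz⟩ := exists_zero (MvPolynomial.map (evalEvalRingHom q.1 q.2) F) a ha
      (by rw [MvPolynomial.coeff_map]; exact h3)
    exact ⟨q, hq, z, by rw [MvPolynomial.eval_map] at hz; exact hz⟩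
  · by_contra hc
    push Not at hc
    obtain ⟨u, hu⟩ := alg2c FK m hm c fun z hz => by
      have h2 := unred _ θ hker' F z fun q hq => hc q hq z hz
      rw [hF1, map_mul, MvPolynomial.eval_C] at h2
      exact (mul_eq_zero.1 h2).resolve_left hC
    rcases hF.isUnit_or_isUnit hu with h | h
    · obtain ⟨i, hi⟩ := Function.ne_iff.1 hm
      have hi' : (m i : K) ≠ 0 := by
        have : (m i : ℂ) ≠ 0 := by exact_mod_cast hi
        rw [← map_intCast (algebraMap ℂ K)]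
        exact (_root_.map_ne_zero _).2 this
      have h2 := h.map (MvPolynomial.eval (Pi.single i (algebraMap ℂ K c / m i)))
      simp only [map_sub, map_sum, map_mul, MvPolynomial.eval_C, MvPolynomial.eval_X] at h2
      rw [Finset.sum_eq_single i (fun j _ hj => by rw [Pi.single_eq_of_ne hj, mul_zero])
        (by simp), Pi.single_eq_same, mul_div_cancel₀ _ hi', sub_self] at h2
      exact not_isUnit_zero h2
    · refine hadd m hm c ?_
      rw [hu]
      exact h.mul_right_dvd.2 dvd_rfl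

end K

end A3

open A3 in
theorem alg3_of
    (halg : ∀ (L : Type) [Field L] [Algebra ℂ L] (y : Fin n → L), (∀ i, y i ≠ 0) →
      (∀ m : Fin n → ℤ, m ≠ 0 → ∀ c : ℂ, ∏ i, y i ^ m i ≠ algebraMap ℂ L c) →
      (∀ i j, ∃ f : MvPolynomial (Fin 2) ℂ, f ≠ 0 ∧ MvPolynomial.aeval ![y i, y j] f = 0) →
      ∃ (M : Model n) (θ : ℂ[X][X] →ₐ[ℂ] L), (∀ g, θ g = 0 ↔ M.R ∣ g) ∧
        (∀ i, θ (M.A i) = θ (C M.b) * y i) ∧
        (∀ g, θ g ∈ IntermediateField.adjoin ℂ (range y)) ∧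
        (∀ u ∈ IntermediateField.adjoin ℂ (range y), ∃ (g : ℂ[X][X]) (h : ℂ[X]), h ≠ 0 ∧
          θ g = θ (C h) * u))
    (hn : 0 < n) (P : Ideal (MvPolynomial (Fin n ⊕ Fin n) ℂ))
    (V : Set (Fin n ⊕ Fin n → ℂ)) (hP : P.IsPrime)
    (hV : V = {p | (∀ f ∈ P, MvPolynomial.eval p f = 0) ∧ ∀ j : Fin n, p (Sum.inr j) ≠ 0})
    (hadd : ∀ m : Fin n → ℤ, m ≠ 0 → ∀ c : ℂ,
      ∃ p ∈ V, (∑ j : Fin n, (m j : ℂ) * p (Sum.inl j)) ≠ c)
    (hmul : ∀ m : Fin n → ℤ, m ≠ 0 → ∀ c : ℂ,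
      ∃ p ∈ V, (∏ j : Fin n, p (Sum.inr j) ^ (m j)) ≠ c)
    (hdim : ∃ J : Finset (Fin n ⊕ Fin n), n ≤ J.card ∧
      ∀ f : MvPolynomial (Fin n ⊕ Fin n) ℂ, f.vars ⊆ J →
        (∀ p ∈ V, MvPolynomial.eval p f = 0) → f = 0)
    (hcurve : ∀ i j : Fin n, ∃ f : MvPolynomial (Fin 2) ℂ, f ≠ 0 ∧
      ∀ p ∈ V, MvPolynomial.eval ![p (Sum.inr i), p (Sum.inr j)] f = 0) :
    ∃ (M : Model n) (F : MvPolynomial (Fin n) ℂ[X][X]),
      (∀ q ∈ M.Γ, ∀ z, evF F q z = 0 → ∀ f ∈ P, MvPolynomial.eval (Sum.elim z (M.Y q)) f = 0) ∧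
      ((∀ q ∈ M.Γ, ∀ z, evF F q z = 0) ∨
        ((∃ q ∈ M.Γ, ∃ z, evF F q z = 0) ∧ ∀ m : Fin n → ℤ, m ≠ 0 → ∀ c : ℂ,
          ∃ q ∈ M.Γ, ∃ z : Fin n → ℂ, ∑ i, (m i : ℂ) * z i = c ∧ evF F q z ≠ 0)) := by
  classical
  have hne : V.Nonempty := by
    obtain ⟨p, hp, -⟩ := hmul (fun _ => 1) (fun h => one_ne_zero (congrFun h ⟨0, hn⟩)) 0
    exact ⟨p, hp⟩
  have hPV : ∀ f ∈ P, ∀ p ∈ V, MvPolynomial.eval p f = 0 := fun f hf p hp => by
    rw [hV] at hp; exact hp.1 f hf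
  have hV0 : ∀ p ∈ V, ∀ j, p (Sum.inr j) ≠ 0 := fun p hp => by rw [hV] at hp; exact hp.2
  obtain ⟨L, _, _, x, y, hker⟩ : ∃ (L : Type) (_ : Field L) (_ : Algebra ℂ L) (x y : Fin n → L),
      ∀ f, MvPolynomial.aeval (Sum.elim x y) f = 0 ↔ f ∈ P := by
    let Q := MvPolynomial (Fin n ⊕ Fin n) ℂ ⧸ P
    let π : MvPolynomial (Fin n ⊕ Fin n) ℂ →ₐ[ℂ] FractionRing Q :=
      (IsScalarTower.toAlgHom ℂ Q (FractionRing Q)).comp (Ideal.Quotient.mkₐ ℂ P)
    refine ⟨FractionRing Q, inferInstance, inferInstance, fun i => π (MvPolynomial.X (Sum.inl i)),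
      fun i => π (MvPolynomial.X (Sum.inr i)), fun f => ?_⟩
    have h1 : MvPolynomial.aeval (Sum.elim (fun i => π (MvPolynomial.X (Sum.inl i)))
        fun i => π (MvPolynomial.X (Sum.inr i))) = π := by
      refine MvPolynomial.algHom_ext fun j => ?_
      rcases j with i | i <;> simp
    rw [h1]
    change algebraMap Q (FractionRing Q) (Ideal.Quotient.mk P f) = 0 ↔ _
    rw [map_eq_zero_iff _ (IsFractionRing.injective Q (FractionRing Q)),
      Ideal.Quotient.eq_zero_iff_mem]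
  have hy : ∀ i, y i ≠ 0 := fun i h => by
    obtain ⟨p, hp⟩ := hne
    have h1 := hPV _ ((hker (MvPolynomial.X (Sum.inr i))).1 (by simpa using h)) p hp
    exact hV0 p hp i (by simpa using h1)
  obtain ⟨M, θ, hθ, hA, hmem, hsurj⟩ := halg L y hy (fun m hm c h => by
      obtain ⟨p, hp, hpc⟩ := hmul m hm c
      rw [prod_zpow_eq y hy] at h
      have h1 := hPV _ ((hker (∏ i, MvPolynomial.X (Sum.inr i) ^ (m i).toNat -
        MvPolynomial.C c * ∏ i, MvPolynomial.X (Sum.inr i) ^ (-m i).toNat)).1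
        (by simpa [sub_eq_zero] using h)) p hp
      refine hpc ((prod_zpow_eq (fun i => p (Sum.inr i)) (hV0 p hp) m c).2 ?_)
      simpa [sub_eq_zero] using h1)
    (fun i j => by
      obtain ⟨f, hf, hf'⟩ := hcurve i j
      refine ⟨f, hf, ?_⟩
      have h1 := (hker (MvPolynomial.rename ![Sum.inr i, Sum.inr j] f)).2
        (bridge P V hP hV hne _ fun p hp => by
          rw [MvPolynomial.eval_rename, ← hf' p hp]
          congr 2
          ext k
          fin_cases k <;> rfl)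
      rw [MvPolynomial.aeval_rename] at h1
      rw [← h1]
      congr 2
      ext k
      fin_cases k <;> rfl)
  set K := IntermediateField.adjoin ℂ (range y) with hK
  let θK : ℂ[X][X] →ₐ[ℂ] K := θ.codRestrict K.toSubalgebra hmem
  let yK : Fin n → K := fun i => ⟨y i, IntermediateField.subset_adjoin _ _ ⟨i, rfl⟩⟩
  have hker' : ∀ g, θK g = 0 ↔ M.R ∣ g := fun g => by
    rw [← hθ]
    exact Subtype.ext_iff
  have hsurj' : ∀ u : K, ∃ (g : ℂ[X][X]) (h : ℂ[X]), h ≠ 0 ∧ θK g = θK (C h) * u := fun u => by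
    obtain ⟨g, h, hh, hg⟩ := hsurj u u.2
    exact ⟨g, h, hh, Subtype.ext hg⟩
  obtain ⟨J, hJ, hJ'⟩ := hdim
  obtain ⟨i₀, hi₀⟩ := alg2b (k := ℂ) hn x yK (θK (C X)) (algebraic M θK hker' hsurj') J hJ (by
    rw [algebraicIndependent_iff]
    intro g hg
    have h1 : MvPolynomial.rename (Subtype.val : J → Fin n ⊕ Fin n) g ∈ P := by
      rw [← hker, MvPolynomial.aeval_rename]
      exact hg
    refine MvPolynomial.rename_injective _ Subtype.val_injective ?_
    rw [map_zero]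
    refine hJ' _ ((MvPolynomial.vars_rename _ _).trans ?_) (hPV _ h1)
    intro j hj
    obtain ⟨k, -, rfl⟩ := Finset.mem_image.1 hj
    exact k.2)
  obtain ⟨FK, hF, hFK⟩ := alg2 x i₀ hi₀
  have hev : ∀ f : MvPolynomial (Fin n ⊕ Fin n) ℂ, MvPolynomial.aeval x
      (MvPolynomial.aeval (Sum.elim MvPolynomial.X fun i => MvPolynomial.C (yK i)) f :
        MvPolynomial (Fin n) K) = MvPolynomial.aeval (Sum.elim x y) f := by
    intro f
    induction f using MvPolynomial.induction_on with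
    | C a =>
      rw [MvPolynomial.aeval_C, MvPolynomial.aeval_C, MvPolynomial.algebraMap_apply,
        MvPolynomial.aeval_C]
      rfl
    | add p q hp hq => simp only [map_add, hp, hq]
    | mul_X p j hp =>
      rcases j with i | i
      · simp only [map_mul, hp, MvPolynomial.aeval_X, Sum.elim_inl]
      · simp only [map_mul, hp, MvPolynomial.aeval_X, Sum.elim_inr, MvPolynomial.aeval_C]
        rfl
  refine core M θK hker' hsurj' yK (fun i => Subtype.ext (hA i)) P FK hF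
    (fun f hf => (hFK _).1 ((hev f).trans ((hker f).2 hf))) fun m hm c h => ?_
  obtain ⟨p, hp, hpc⟩ := hadd m hm c
  have h1 := (hFK _).2 h
  have h2 := hPV _ ((hker (∑ i, MvPolynomial.C (m i : ℂ) * MvPolynomial.X (Sum.inl i) -
    MvPolynomial.C c)).1 (by
      rw [← h1]
      simp only [map_sub, map_sum, map_mul, MvPolynomial.aeval_C, MvPolynomial.aeval_X,
        Sum.elim_inl, map_intCast]
      rfl)) p hp
  refine hpc ?_
  simpa [sub_eq_zero] using h2

end Pool.Agent.H195Z.EC
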