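import Mathlib
import Pool.Agent.H195Z.EC.Defs
import Pool.Agent.Helper272.Arn.J5759

/-!
# The good part of an irreducible plane curve is connected through charts
-/

set_option autoImplicit false

open Polynomial Set Filter Topology Metric

namespace Pool.Agent.H195Z.EC

variable {n : ℕ}

namespace Connaux

theorem poly_of_growth : ∀ (n : ℕ) (f : ℂ → ℂ), Differentiable ℂ f →
    (∃ C R : ℝ, ∀ z, R ≤ ‖z‖ → ‖f z‖ ≤ C * ‖z‖ ^ n) → ∃ p : ℂ[X], ∀ z, f z = p.eval z := by
  intro n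
  induction n with
  | zero =>
    rintro f hf ⟨C, R, h⟩
    have hb : Bornology.IsBounded (range f) := by
      obtain ⟨C', hC'⟩ := (isCompact_closedBall (0 : ℂ) R).exists_bound_of_continuousOn
        hf.continuous.continuousOn
      rw [isBounded_iff_forall_norm_le]
      refine ⟨max C C', ?_⟩
      rintro _ ⟨z, rfl⟩
      rcases le_total R ‖z‖ with hz | hz
      · exact ((h z hz).trans (by simp)).trans (le_max_left _ _)
      · exact (hC' z (by simpa using hz)).trans (le_max_right _ _)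
    obtain ⟨c, hc⟩ := hf.exists_const_forall_eq_of_bounded hb
    exact ⟨Polynomial.C c, fun z => by rw [hc z, Polynomial.eval_C]⟩
  | succ n ih =>
    rintro f hf ⟨C, R, h⟩
    have hg : Differentiable ℂ (dslope f 0) := by
      rw [← differentiableOn_univ]
      exact (Complex.differentiableOn_dslope univ_mem).mpr hf.differentiableOn
    have hfg : ∀ z, f z = f 0 + z * dslope f 0 z := by
      intro z
      have := sub_smul_dslope f 0 z
      rw [sub_zero, smul_eq_mul] at this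
      rw [this]; ring
    obtain ⟨p, hp⟩ := ih (dslope f 0) hg ⟨C + ‖f 0‖, max R 1, fun z hz => by
      have hz1 : 1 ≤ ‖z‖ := (le_max_right _ _).trans hz
      have hz0 : 0 < ‖z‖ := lt_of_lt_of_le one_pos hz1
      have h1 := h z ((le_max_left _ _).trans hz)
      have h2 : z * dslope f 0 z = f z - f 0 := by rw [hfg z]; ring
      have h3 : ‖z‖ * ‖dslope f 0 z‖ ≤ ‖z‖ * ((C + ‖f 0‖) * ‖z‖ ^ n) := by
        rw [← norm_mul, h2]
        have h4 : (1 : ℝ) ≤ ‖z‖ ^ (n + 1) := one_le_pow₀ hz1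
        calc ‖f z - f 0‖ ≤ ‖f z‖ + ‖f 0‖ := norm_sub_le _ _
          _ ≤ C * ‖z‖ ^ (n + 1) + ‖f 0‖ * ‖z‖ ^ (n + 1) := by
              have := mul_le_mul_of_nonneg_left h4 (norm_nonneg (f 0))
              linarith
          _ = ‖z‖ * ((C + ‖f 0‖) * ‖z‖ ^ n) := by ring
      exact le_of_mul_le_mul_left h3 hz0⟩
    exact ⟨Polynomial.C (f 0) + X * p, fun z => by rw [hfg z, hp z]; simp⟩

/-- Polynomial growth. -/
def PG (f : ℂ → ℝ) : Prop := ∃ (C : ℝ) (N : ℕ), 0 ≤ C ∧ ∀ t : ℂ, 1 ≤ ‖t‖ → |f t| ≤ C * ‖t‖ ^ N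

theorem PG.const (c : ℝ) : PG fun _ => c := ⟨|c|, 0, abs_nonneg c, fun _ _ => by simp⟩

theorem PG.add {f g : ℂ → ℝ} (hf : PG f) (hg : PG g) : PG fun t => f t + g t := by
  obtain ⟨C, N, hC, h⟩ := hf
  obtain ⟨C', N', hC', h'⟩ := hg
  refine ⟨C + C', N + N', by positivity, fun t ht => (abs_add_le _ _).trans ?_⟩
  have h1 : ‖t‖ ^ N ≤ ‖t‖ ^ (N + N') := pow_le_pow_right₀ ht (by omega)
  have h2 : ‖t‖ ^ N' ≤ ‖t‖ ^ (N + N') := pow_le_pow_right₀ ht (by omega)
  have h3 := mul_le_mul_of_nonneg_left h1 hC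
  have h4 := mul_le_mul_of_nonneg_left h2 hC'
  linarith [h t ht, h' t ht]

theorem PG.mul {f g : ℂ → ℝ} (hf : PG f) (hg : PG g) : PG fun t => f t * g t := by
  obtain ⟨C, N, hC, h⟩ := hf
  obtain ⟨C', N', hC', h'⟩ := hg
  refine ⟨C * C', N + N', by positivity, fun t ht => ?_⟩
  rw [abs_mul, pow_add, mul_mul_mul_comm]
  exact mul_le_mul (h t ht) (h' t ht) (abs_nonneg _) (by positivity)

theorem PG.pow {f : ℂ → ℝ} (hf : PG f) (k : ℕ) : PG fun t => f t ^ k := by
  induction k with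
  | zero => simpa using PG.const 1
  | succ k ih => simpa only [pow_succ] using ih.mul hf

theorem PG.sum {ι : Type} (s : Finset ι) {f : ι → ℂ → ℝ} (hf : ∀ i, PG (f i)) :
    PG fun t => ∑ i ∈ s, f i t := by
  classical
  induction s using Finset.induction_on with
  | empty => simpa using PG.const 0
  | insert a s ha ih => simpa only [Finset.sum_insert ha] using (hf a).add ih

theorem PG.poly (p : ℂ[X]) : PG fun t => ‖p.eval t‖ := by
  induction p using Polynomial.induction_on' with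
  | add p q hp hq =>
    obtain ⟨C, N, hC, h⟩ := hp.add hq
    refine ⟨C, N, hC, fun t ht => le_trans ?_ ((le_abs_self _).trans (h t ht))⟩
    rw [abs_norm, eval_add]
    exact norm_add_le _ _
  | monomial k a => exact ⟨‖a‖, k, norm_nonneg a, fun t _ => by simp⟩

end Connaux

open Connaux

theorem chart (M : Model n) (t₀ : ℂ) (ht : M.e.eval t₀ ≠ 0) :
    ∃ r : ℝ, 0 < r ∧ ∃ α : Fin M.R.natDegree → ℂ → ℂ,
      (∀ t ∈ ball t₀ r, M.e.eval t ≠ 0) ∧ (∀ j, DifferentiableOn ℂ (α j) (ball t₀ r)) ∧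
      (∀ t ∈ ball t₀ r, Function.Injective fun j => α j t) ∧
      (∀ t ∈ ball t₀ r, ∀ w, M.R.evalEval t w = 0 ↔ ∃ j, w = α j t) := by
  obtain ⟨r, hr, h⟩ := Metric.eventually_nhds_iff_ball.1
    (M.e.continuous.continuousAt.eventually_ne ht)
  obtain ⟨α, h1, h2, h3⟩ := AR.J5652.root_functions isOpen_ball (convex_ball t₀ r) M.R.natDegree
    (fun t => M.R.map (evalRingHom t))
    (fun i => by
      simp only [coeff_map, coe_evalRingHom]
      exact (M.R.coeff i).differentiable.differentiableOn)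
    (fun t _ => M.monic.natDegree_map _) (fun t ht => M.sep t (h t ht))
  exact ⟨r, hr, α, h, h1, h2, fun t ht w => by rw [← h3 t ht w, map_evalRingHom_eval]⟩

theorem conn (M : Model n) (P : ℂ × ℂ → Prop)
    (hP : ∀ (c : ℂ) (r : ℝ) (α : ℂ → ℂ), (∀ t ∈ ball c r, (t, α t) ∈ M.Γ) →
      DifferentiableOn ℂ α (ball c r) → ∀ t ∈ ball c r, ∀ t' ∈ ball c r,
      P (t, α t) → P (t', α t'))
    {q q' : ℂ × ℂ} (hq : q ∈ M.Γ) (hq' : q' ∈ M.Γ) (h : P q) : P q' := by
  classical
  set D := M.R.natDegree with hD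
  have hmon : ∀ t, (M.R.map (evalRingHom t)).Monic := fun t => M.monic.map _
  have hdeg : ∀ t, (M.R.map (evalRingHom t)).natDegree = D := fun t => M.monic.natDegree_map _
  set Z : ℂ → Finset ℂ := fun t =>
    (M.R.map (evalRingHom t)).roots.toFinset.filter fun r => P (t, r) with hZ
  have hmem : ∀ t w, w ∈ Z t ↔ M.R.evalEval t w = 0 ∧ P (t, w) := by
    intro t w
    simp only [hZ, Finset.mem_filter, Multiset.mem_toFinset, mem_roots (hmon t).ne_zero,
      IsRoot.def, map_evalRingHom_eval]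
  have hcard : ∀ t, (Z t).card ≤ D := fun t =>
    (Finset.card_filter_le _ _).trans ((Multiset.toFinset_card_le _).trans
      ((card_roots' _).trans (hdeg t).le))
  set B : ℂ → ℝ := fun t => 1 + ∑ i ∈ Finset.range D, ‖(M.R.coeff i).eval t‖ with hB
  have hB0 : ∀ t, 0 ≤ B t := fun t => by positivity
  have hroot : ∀ t, ∀ w ∈ Z t, ‖w‖ ≤ B t := by
    intro t w hw
    have := AR.J5759.pz_root_bound (M.R.map (evalRingHom t)) w
      (by rw [map_evalRingHom_eval]; exact ((hmem t w).1 hw).1)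
      (by rw [(hmon t).leadingCoeff]; simp)
    simpa only [(hmon t).leadingCoeff, norm_one, div_one, hdeg, coeff_map, coe_evalRingHom]
      using this
  set F : ℂ → ℂ → ℂ := fun w t => M.e.eval t * ∏ r ∈ Z t, (w - r) with hF
  have hFb : ∀ w t, ‖F w t‖ ≤ ‖M.e.eval t‖ * (1 + ‖w‖ + B t) ^ D := by
    intro w t
    rw [hF, norm_mul, norm_prod]
    refine mul_le_mul_of_nonneg_left ?_ (norm_nonneg _)
    have h1 : 1 ≤ 1 + ‖w‖ + B t := by linarith [norm_nonneg w, hB0 t]
    refine (Finset.prod_le_prod (g := fun _ => 1 + ‖w‖ + B t) (fun _ _ => norm_nonneg _)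
      fun r hr => ?_).trans (by rw [Finset.prod_const]; exact pow_le_pow_right₀ h1 (hcard t))
    linarith [norm_sub_le w r, hroot t r hr]
  have hloc : ∀ t₀, M.e.eval t₀ ≠ 0 → ∃ r : ℝ, 0 < r ∧ ∃ α : Fin D → ℂ → ℂ,
      (∀ t ∈ ball t₀ r, M.e.eval t ≠ 0) ∧ (∀ j, DifferentiableOn ℂ (α j) (ball t₀ r)) ∧
      (∀ t ∈ ball t₀ r, Function.Injective fun j => α j t) ∧
      ∀ t ∈ ball t₀ r, Z t = (Finset.univ.filter fun j => P (t₀, α j t₀)).image fun j => α j t := by
    intro t₀ ht₀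
    obtain ⟨r, hr, α, h1, h2, h3, h4⟩ := chart M t₀ ht₀
    refine ⟨r, hr, α, h1, h2, h3, fun t ht => ?_⟩
    have h5 := fun j => hP t₀ r (α j) (fun t ht => ⟨h1 t ht, (h4 t ht _).2 ⟨j, rfl⟩⟩) (h2 j)
    ext w
    simp only [hmem, Finset.mem_image, Finset.mem_filter, Finset.mem_univ, true_and]
    constructor
    · rintro ⟨h6, h7⟩
      obtain ⟨j, rfl⟩ := (h4 t ht w).1 h6
      exact ⟨j, h5 j t ht t₀ (mem_ball_self hr) h7, rfl⟩
    · rintro ⟨j, h6, rfl⟩
      exact ⟨(h4 t ht _).2 ⟨j, rfl⟩, h5 j t₀ (mem_ball_self hr) t ht h6⟩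
  have hd1 : ∀ w t₀, M.e.eval t₀ ≠ 0 → DifferentiableAt ℂ (F w) t₀ := by
    intro w t₀ ht₀
    obtain ⟨r, hr, α, -, h2, h3, h4⟩ := hloc t₀ ht₀
    have h5 : DifferentiableAt ℂ (fun t => M.e.eval t *
        ∏ j ∈ Finset.univ.filter fun j => P (t₀, α j t₀), (w - α j t)) t₀ :=
      M.e.differentiableAt.mul (DifferentiableAt.fun_finsetProd fun j _ =>
        (differentiableAt_const w).sub ((h2 j).differentiableAt (ball_mem_nhds t₀ hr)))
    refine h5.congr_of_eventuallyEq ?_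
    filter_upwards [ball_mem_nhds t₀ hr] with t ht
    rw [hF]
    simp only
    rw [h4 t ht, Finset.prod_image fun a _ b _ hab => h3 t ht hab]
  have hBc : Continuous B := by
    refine continuous_const.add (continuous_finsetSum _ fun i _ => ?_)
    exact (M.R.coeff i).continuous.norm
  have hd : ∀ w, Differentiable ℂ (F w) := by
    intro w t₀
    by_cases ht₀ : M.e.eval t₀ = 0
    swap
    · exact hd1 w t₀ ht₀
    refine (Complex.analyticAt_of_differentiable_on_punctured_nhds_of_continuousAt ?_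
      ?_).differentiableAt
    · have h1 : ∀ᶠ t in 𝓝[≠] t₀, M.e.eval t ≠ 0 := by
        have h2 := (finite_setOfPred_isRoot M.e_ne).sdiff (t := {t₀})
        have h3 := h2.isClosed.isOpen_compl.mem_nhds (x := t₀) (by simp)
        filter_upwards [mem_nhdsWithin_of_mem_nhds h3, self_mem_nhdsWithin] with t h4 h5 h6
        exact h4 ⟨h6, h5⟩
      exact h1.mono fun t ht => hd1 w t ht
    · have h0 : F w t₀ = 0 := by simp [hF, ht₀]
      rw [ContinuousAt, h0]
      refine squeeze_zero_norm (hFb w) ?_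
      have h1 : Continuous fun t => ‖M.e.eval t‖ * (1 + ‖w‖ + B t) ^ D :=
        M.e.continuous.norm.mul ((continuous_const.add hBc).pow D)
      have := h1.tendsto t₀
      rwa [ht₀, norm_zero, zero_mul] at this
  have hpoly : ∀ w, ∃ p : ℂ[X], ∀ t, F w t = p.eval t := by
    intro w
    obtain ⟨C, N, -, hC⟩ := (PG.poly M.e).mul (((PG.const (1 + ‖w‖)).add ((PG.const 1).add
      (PG.sum (Finset.range D) fun i => PG.poly (M.R.coeff i)))).pow D)
    exact poly_of_growth N _ (hd w) ⟨C, 1, fun t ht =>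
      (hFb w t).trans ((le_abs_self _).trans (hC t ht))⟩
  choose p hp using hpoly
  set s := Finset.range (D + 1) with hs
  set g : ℂ[X][X] := ∑ k ∈ s, C (p k) * (Lagrange.basis s (fun k : ℕ => (k : ℂ)) k).map C with hg
  have hgF : ∀ t w, g.evalEval t w = F w t := by
    intro t w
    have h1 : (C (M.e.eval t) * ∏ r ∈ Z t, (X - C r)).degree < s.card := by
      refine (degree_le_of_natDegree_le (n := D) ((natDegree_C_mul_le _ _).trans ?_)).trans_lt ?_
      · rw [natDegree_finsetProd_X_sub_C_eq_card]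
        exact hcard t
      · rw [hs, Finset.card_range]
        exact_mod_cast Nat.lt_succ_self D
    have h2 := Lagrange.eq_interpolate (s := s) (v := fun k : ℕ => (k : ℂ))
      (Nat.cast_injective.injOn) h1
    have h3 : ∀ x, (C (M.e.eval t) * ∏ r ∈ Z t, (X - C r)).eval x = F x t := fun x => by
      simp [hF, eval_prod]
    rw [← h3 w, h2, Lagrange.interpolate_apply, eval_finsetSum, hg, evalEval_finsetSum]
    refine Finset.sum_congr rfl fun k _ => ?_
    rw [evalEval_mul, evalEval_C, evalEval_map_C, eval_mul, eval_C, h3, hp]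
  have hdvd : M.R ∣ g := by
    refine dens M.monic M.irr g ?_
    obtain ⟨r, hr, α, h1, -, -, h4⟩ := hloc q.1 hq.1
    refine (infinite_of_mem_nhds q.1 (ball_mem_nhds q.1 hr)).mono fun t ht => ?_
    have h5 : q.2 ∈ Z q.1 := (hmem _ _).2 ⟨hq.2, h⟩
    rw [h4 q.1 (mem_ball_self hr)] at h5
    obtain ⟨j, hj, -⟩ := Finset.mem_image.1 h5
    have h6 : α j t ∈ Z t := by
      rw [h4 t ht]
      exact Finset.mem_image_of_mem _ hj
    refine ⟨α j t, ((hmem _ _).1 h6).1, ?_⟩
    rw [hgF, hF]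
    exact mul_eq_zero_of_right _ (Finset.prod_eq_zero h6 (sub_self _))
  obtain ⟨c, hc⟩ := hdvd
  have h1 := hgF q'.1 q'.2
  rw [hc, evalEval_mul, hq'.2, zero_mul, hF] at h1
  obtain ⟨r, hr, h2⟩ := Finset.prod_eq_zero_iff.1 ((mul_eq_zero.1 h1.symm).resolve_left hq'.1)
  rw [sub_eq_zero] at h2
  have := ((hmem _ _).1 hr).2
  rwa [← h2] at this

end Pool.Agent.H195Z.EC
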