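import Mathlib
import Pool.Agent.H195Z.EC.Defs
import Pool.Agent.Helper272.Arn.J5759

/-!
# Punctures and compact core of a plane curve
-/

set_option autoImplicit false

open Polynomial Set Filter Topology Metric

namespace Pool.Agent.H195Z.EC

namespace Cptaux

/-- moderate growth on a left half plane -/
def MG (c : ℝ) (f : ℂ → ℝ) : Prop :=
  ∃ C r : ℝ, 0 ≤ C ∧ 0 ≤ r ∧ ∀ w : ℂ, w.re < c → f w ≤ C * Real.exp (r * (c - w.re))

theorem MG.mono {c : ℝ} {f g : ℂ → ℝ} (hg : MG c g) (h : ∀ w : ℂ, w.re < c → f w ≤ g w) :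
    MG c f := by
  obtain ⟨C, r, hC, hr, hb⟩ := hg
  exact ⟨C, r, hC, hr, fun w hw => (h w hw).trans (hb w hw)⟩

theorem MG.const (c a : ℝ) : MG c (fun _ => a) :=
  ⟨|a|, 0, abs_nonneg a, le_rfl, fun w _ => by simpa using le_abs_self a⟩

theorem MG.add {c : ℝ} {f g : ℂ → ℝ} (hf : MG c f) (hg : MG c g) :
    MG c (fun w => f w + g w) := by
  obtain ⟨C, r, hC, hr, hb⟩ := hf
  obtain ⟨D, s, hD, hs, hb'⟩ := hg
  refine ⟨C + D, r + s, by positivity, by positivity, fun w hw => ?_⟩
  have h0 : 0 ≤ c - w.re := by linarith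
  have h1 : Real.exp (r * (c - w.re)) ≤ Real.exp ((r + s) * (c - w.re)) :=
    Real.exp_le_exp.2 (by nlinarith [mul_nonneg hs h0])
  have h2 : Real.exp (s * (c - w.re)) ≤ Real.exp ((r + s) * (c - w.re)) :=
    Real.exp_le_exp.2 (by nlinarith [mul_nonneg hr h0])
  have h3 := mul_le_mul_of_nonneg_left h1 hC
  have h4 := mul_le_mul_of_nonneg_left h2 hD
  have h5 := hb w hw
  have h6 := hb' w hw
  show f w + g w ≤ _
  linarith

theorem MG.mul {c : ℝ} {f g : ℂ → ℂ} (hf : MG c (fun w => ‖f w‖)) (hg : MG c (fun w => ‖g w‖)) :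
    MG c (fun w => ‖f w * g w‖) := by
  obtain ⟨C, r, hC, hr, hb⟩ := hf
  obtain ⟨D, s, hD, hs, hb'⟩ := hg
  refine ⟨C * D, r + s, by positivity, by positivity, fun w hw => ?_⟩
  have h5 : ‖f w‖ ≤ _ := hb w hw
  have h6 : ‖g w‖ ≤ _ := hb' w hw
  show ‖f w * g w‖ ≤ _
  rw [norm_mul, add_mul, Real.exp_add]
  calc ‖f w‖ * ‖g w‖ ≤ (C * Real.exp (r * (c - w.re))) * (D * Real.exp (s * (c - w.re))) :=
        mul_le_mul h5 h6 (norm_nonneg _) (by positivity)
    _ = _ := by ring

theorem MG.pow {c : ℝ} {f : ℂ → ℂ} (hf : MG c (fun w => ‖f w‖)) (k : ℕ) :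
    MG c (fun w => ‖f w ^ k‖) := by
  induction k with
  | zero => exact (MG.const c 1).mono (fun w _ => by simp)
  | succ k ih => exact (ih.mul hf).mono (fun w _ => by rw [pow_succ])

theorem MG.sum {c : ℝ} {ι : Type*} (s : Finset ι) (f : ι → ℂ → ℝ) (hf : ∀ i ∈ s, MG c (f i)) :
    MG c (fun w => ∑ i ∈ s, f i w) := by
  classical
  induction s using Finset.induction_on with
  | empty => exact (MG.const c 0).mono (fun w _ => by simp)
  | insert a s ha ih =>
    have h1 := (hf a (Finset.mem_insert_self a s)).add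
      (ih fun i hi => hf i (Finset.mem_insert_of_mem hi))
    exact h1.mono (fun w _ => by rw [Finset.sum_insert ha])

theorem MG.eval {c : ℝ} {θ : ℂ → ℂ} (hθ : MG c (fun w => ‖θ w‖)) (p : ℂ[X]) :
    MG c (fun w => ‖p.eval (θ w)‖) := by
  induction p using Polynomial.induction_on' with
  | add p q hp hq =>
    exact (hp.add hq).mono (fun w _ => by rw [eval_add]; exact norm_add_le _ _)
  | monomial k a =>
    have h1 := MG.mul (f := fun _ => a) (MG.const c ‖a‖) (hθ.pow k)
    exact h1.mono (fun w _ => by rw [eval_monomial])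

theorem evalEval_monomial (x y : ℂ) (k : ℕ) (a : ℂ[X]) :
    (monomial k a : ℂ[X][X]).evalEval x y = a.eval x * y ^ k := by
  rw [← C_mul_X_pow_eq_monomial, evalEval_mul, evalEval_C, evalEval_pow, evalEval_X]

theorem MG.evalEval {c : ℝ} {θ α : ℂ → ℂ} (hθ : MG c (fun w => ‖θ w‖))
    (hα : MG c (fun w => ‖α w‖)) (P : ℂ[X][X]) :
    MG c (fun w => ‖P.evalEval (θ w) (α w)‖) := by
  induction P using Polynomial.induction_on' with
  | add p q hp hq =>
    exact (hp.add hq).mono (fun w _ => by rw [evalEval_add]; exact norm_add_le _ _)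
  | monomial k a =>
    have h1 := MG.mul (hθ.eval a) (hα.pow k)
    exact h1.mono (fun w _ => by rw [evalEval_monomial])

theorem MG.out {c : ℝ} {f : ℂ → ℝ} (hf : MG c f) :
    ∃ C r : ℝ, ∀ w : ℂ, w.re < c → f w ≤ C * Real.exp (-r * w.re) := by
  obtain ⟨C, r, _, _, hb⟩ := hf
  refine ⟨C * Real.exp (r * c), r, fun w hw => (hb w hw).trans (le_of_eq ?_)⟩
  rw [mul_assoc, ← Real.exp_add]
  congr 2
  ring

theorem diff_evalEval {U : Set ℂ} {θ α : ℂ → ℂ} (hθ : DifferentiableOn ℂ θ U)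
    (hα : DifferentiableOn ℂ α U) (P : ℂ[X][X]) :
    DifferentiableOn ℂ (fun w => P.evalEval (θ w) (α w)) U := by
  induction P using Polynomial.induction_on' with
  | add p q hp hq =>
    simp only [evalEval_add]
    exact hp.add hq
  | monomial k a =>
    simp only [evalEval_monomial]
    exact (a.differentiable.comp_differentiableOn hθ).mul (hα.pow k)

theorem cont_evalEval (P : ℂ[X][X]) : Continuous (fun q : ℂ × ℂ => P.evalEval q.1 q.2) := by
  induction P using Polynomial.induction_on' with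
  | add p q hp hq =>
    simp only [evalEval_add]
    exact hp.add hq
  | monomial k a =>
    simp only [evalEval_monomial]
    exact (a.continuous.comp continuous_fst).mul (continuous_snd.pow k)

theorem root_bound {R : ℂ[X][X]} (hm : R.Monic) (t v : ℂ) (h : R.evalEval t v = 0) :
    ‖v‖ ≤ 1 + ∑ i ∈ Finset.range R.natDegree, ‖(R.coeff i).eval t‖ := by
  rw [AR.J5759.evalEval_eq_map] at h
  have hm' : (R.map (evalRingHom t)).Monic := hm.map _
  have h1 := AR.J5759.pz_root_bound _ v h (by rw [hm'.leadingCoeff]; simp)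
  rw [hm'.leadingCoeff, norm_one, div_one, hm.natDegree_map] at h1
  simpa only [coeff_map, coe_evalRingHom] using h1

/-- periodic root functions along a periodic parametrisation -/
theorem roots_per {R : ℂ[X][X]} (hm : R.Monic) (θ : ℂ → ℂ) (c₀ : ℝ) (hθ : Differentiable ℂ θ)
    (hper : ∀ w, θ (w + 2 * Real.pi * Complex.I) = θ w)
    (hsep : ∀ w : ℂ, w.re < c₀ → (R.map (evalRingHom (θ w))).Separable) :
    ∃ (N : ℕ) (α : Fin R.natDegree → ℂ → ℂ), 0 < N ∧
      (∀ j, DifferentiableOn ℂ (α j) {w | w.re < c₀}) ∧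
      (∀ w : ℂ, w.re < c₀ → ∀ v, R.evalEval (θ w) v = 0 ↔ ∃ j, v = α j w) ∧
      (∀ j, ∀ w : ℂ, w.re < c₀ → α j (w + 2 * Real.pi * Complex.I * N) = α j w) := by
  classical
  have hHo : IsOpen {w : ℂ | w.re < c₀} := isOpen_lt Complex.continuous_re continuous_const
  have hHc : Convex ℝ {w : ℂ | w.re < c₀} := convex_halfSpace_re_lt c₀
  have hHn : ({w : ℂ | w.re < c₀}).Nonempty := ⟨((c₀ - 1 : ℝ) : ℂ), by simp⟩
  obtain ⟨α, hα1, hα2, hα3⟩ := AR.J5652.root_functions hHo hHc R.natDegree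
    (fun w => R.map (evalRingHom (θ w)))
    (by
      intro i
      simp only [coeff_map, coe_evalRingHom]
      apply Differentiable.differentiableOn
      have h1 : Differentiable ℂ (fun z => (R.coeff i).eval z) := (R.coeff i).differentiable
      exact h1.comp hθ)
    (fun w _ => hm.natDegree_map _)
    (fun w hw => hsep w hw)
  have hshift : ∀ w : ℂ, w.re < c₀ → (w + 2 * Real.pi * Complex.I).re < c₀ := by
    intro w hw
    simpa using hw
  have hmon : ∀ j, ∃ k, ∀ w : ℂ, w.re < c₀ → α j (w + 2 * Real.pi * Complex.I) = α k w := by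
    intro j
    refine AR.J5652.root_unique hHc.isPreconnected hHn R.natDegree
      (fun w => R.map (evalRingHom (θ w))) α (fun j => (hα1 j).continuousOn) hα2 hα3
      (fun w => α j (w + 2 * Real.pi * Complex.I)) ?_ ?_
    · apply (hα1 j).continuousOn.comp (by fun_prop)
      intro w hw
      exact hshift w hw
    · intro w hw
      have h1 := (hα3 _ (hshift w hw) (α j (w + 2 * Real.pi * Complex.I))).mpr ⟨j, rfl⟩
      simp only [hper] at h1
      exact h1
  choose σ hσ using hmon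
  have hσinj : Function.Injective σ := by
    intro i j hij
    obtain ⟨w, hw⟩ := hHn
    have h1 := hσ i w hw
    have h2 := hσ j w hw
    rw [hij, ← h2] at h1
    exact hα2 _ (hshift w hw) h1
  have hσb : Function.Bijective σ := Finite.injective_iff_bijective.mp hσinj
  set s : Equiv.Perm (Fin R.natDegree) := Equiv.ofBijective σ hσb with hs
  have hiter : ∀ n : ℕ, ∀ j, ∀ w : ℂ, w.re < c₀ →
      α j (w + 2 * Real.pi * Complex.I * n) = α ((s ^ n) j) w := by
    intro n
    induction n with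
    | zero => intro j w hw; simp
    | succ n ih =>
      intro j w hw
      have h1 : (w + 2 * Real.pi * Complex.I * n).re < c₀ := by
        simpa using hw
      have h2 : w + 2 * Real.pi * Complex.I * ((n + 1 : ℕ) : ℂ) =
          (w + 2 * Real.pi * Complex.I * n) + 2 * Real.pi * Complex.I := by
        push_cast; ring
      rw [h2, hσ j _ h1, ih (σ j) w hw, pow_succ, Equiv.Perm.mul_apply]
      rfl
  refine ⟨orderOf s, α, orderOf_pos s, hα1, ?_, ?_⟩
  · intro w hw v
    rw [AR.J5759.evalEval_eq_map]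
    exact hα3 w hw v
  · intro j w hw
    rw [hiter _ j w hw, pow_orderOf_eq_one]
    rfl

/-- logarithmic form of a zero-free periodic function of moderate growth -/
theorem logform (c₀ : ℝ) (N : ℕ) (hN : 0 < N) (g : ℂ → ℂ)
    (hg : DifferentiableOn ℂ g {w | w.re < c₀})
    (hper : ∀ w : ℂ, w.re < c₀ → g (w + 2 * Real.pi * Complex.I * N) = g w)
    (hgrow : MG c₀ (fun w => ‖g w‖)) (hne : ∀ w : ℂ, w.re < c₀ → g w ≠ 0) :
    ∃ (l : ℤ) (a : ℂ → ℂ), ∀ᶠ k : ℝ in atBot, DifferentiableOn ℂ a (ball 0 (Real.exp k)) ∧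
      ∀ s : ℂ, s.re < k → g (N * s) = Complex.exp (l * s + a (Complex.exp s)) := by
  have hNr : (0 : ℝ) < N := by exact_mod_cast hN
  have hNc : (N : ℂ) ≠ 0 := by exact_mod_cast hN.ne'
  obtain ⟨C, r, hb⟩ := hgrow.out
  rcases AR.J5759.laurent c₀ N hN g hg hper C r hb with h | ⟨l, G, hG1, hG2, c₁, hc₁, h⟩
  · exact absurd (h ((c₀ - 1 : ℝ) : ℂ) (by simp)) (hne _ (by simp))
  refine ⟨l, fun τ => Complex.log (G τ / G 0) + Complex.log (G 0), ?_⟩
  have h1 : ∀ᶠ τ in 𝓝 (0 : ℂ), DifferentiableAt ℂ G τ := hG1.eventually_analyticAt.mono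
    fun τ hτ => hτ.differentiableAt
  have h2 : ∀ᶠ τ in 𝓝 (0 : ℂ), G τ / G 0 ∈ Complex.slitPlane := by
    have h3 : ContinuousAt (fun τ => G τ / G 0) 0 := hG1.continuousAt.div_const _
    apply h3.eventually_mem
    rw [div_self hG2]
    exact Complex.isOpen_slitPlane.mem_nhds Complex.one_mem_slitPlane
  obtain ⟨ε, hε, hball⟩ := Metric.eventually_nhds_iff_ball.1 (h1.and h2)
  filter_upwards [eventually_lt_atBot (Real.log ε), eventually_lt_atBot (c₁ / N)] with k hk hk'
  have hk1 : Real.exp k < ε := (Real.lt_log_iff_exp_lt hε).1 hk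
  refine ⟨?_, ?_⟩
  · intro τ hτ
    obtain ⟨h4, h5⟩ := hball τ (ball_subset_ball hk1.le hτ)
    exact (((h4.div_const _).clog h5).add_const _).differentiableWithinAt
  · intro s hs
    have h4 : ((N : ℂ) * s).re < c₁ := by
      have h5 : ((N : ℂ) * s).re = N * s.re := by simp
      rw [h5]
      have h6 := (lt_div_iff₀ hNr).1 (hs.trans hk')
      linarith
    have h5 : Complex.exp s ∈ ball (0 : ℂ) ε := by
      rw [mem_ball_zero_iff, Complex.norm_exp]
      exact (Real.exp_lt_exp.2 hs).trans hk1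
    obtain ⟨_, h6⟩ := hball _ h5
    have h7 : (l : ℂ) * (N * s) / N = l * s := by field_simp
    have h8 : (N : ℂ) * s / N = s := by field_simp
    rw [h _ h4, h7, h8, Complex.exp_add, Complex.exp_add,
      Complex.exp_log (Complex.slitPlane_ne_zero h6), Complex.exp_log hG2, div_mul_cancel₀ _ hG2]

variable {n : ℕ}

theorem circle_compact {M : Model n} (p : Punct M) :
    IsCompact (range fun σ : ℝ => p.γ (σ * Complex.I)) := by
  apply Function.Periodic.compact_of_continuous (c := 2 * Real.pi)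
  · intro σ
    have h1 := p.per (σ * Complex.I) (by simp)
    show p.γ (((σ + 2 * Real.pi : ℝ) : ℂ) * Complex.I) = p.γ (σ * Complex.I)
    rw [← h1]
    congr 1
    push_cast
    ring
  · positivity
  · exact p.hγ.continuousOn.comp_continuous (by fun_prop) (fun σ => by simp)

theorem circle_sub {M : Model n} (p : Punct M) :
    (range fun σ : ℝ => p.γ (σ * Complex.I)) ⊆ M.Γ := by
  rintro _ ⟨σ, rfl⟩
  exact (p.mem (σ * Complex.I) (by simp)).1

/-- the punctures at one end -/
theorem one_end (M : Model n) (θ : ℂ → ℂ) (c₀ : ℝ) (hθ : Differentiable ℂ θ)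
    (hθ' : ∀ w, deriv θ w ≠ 0) (hper : ∀ w, θ (w + 2 * Real.pi * Complex.I) = θ w)
    (he : ∀ w : ℂ, w.re < c₀ → M.e.eval (θ w) ≠ 0) (hgrow : MG c₀ (fun w => ‖θ w‖)) :
    ∃ (c₁ : ℝ) (K : Set (ℂ × ℂ)), K ⊆ M.Γ ∧ IsCompact K ∧ ∀ w : ℂ, w.re < c₁ →
      ∀ v, M.R.evalEval (θ w) v = 0 → ∃ p : Punct M, (∀ σ : ℝ, p.γ (σ * Complex.I) ∈ K) ∧
        ∃ s : ℂ, s.re < 0 ∧ (θ w, v) = p.γ s := by
  obtain ⟨N, α, hN, hα, hroot, hαper⟩ := roots_per M.monic θ c₀ hθ hper
    (fun w hw => M.sep _ (he w hw))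
  have hNr : (0 : ℝ) < N := by exact_mod_cast hN
  have hNc : (N : ℂ) ≠ 0 := by exact_mod_cast hN.ne'
  have hperN : ∀ w, θ (w + 2 * Real.pi * Complex.I * N) = θ w := by
    intro w
    have h1 : Function.Periodic θ (2 * Real.pi * Complex.I) := hper
    have h2 := h1.nat_mul N w
    rwa [mul_comm] at h2
  have hr0 : ∀ j, ∀ w : ℂ, w.re < c₀ → M.R.evalEval (θ w) (α j w) = 0 :=
    fun j w hw => (hroot w hw _).2 ⟨j, rfl⟩
  have hαg : ∀ j, MG c₀ (fun w => ‖α j w‖) := by
    intro j
    have h1 := (MG.const c₀ 1).add (MG.sum (Finset.range M.R.natDegree)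
      (fun i w => ‖(M.R.coeff i).eval (θ w)‖) (fun i _ => hgrow.eval _))
    exact h1.mono (fun w hw => root_bound M.monic _ _ (hr0 j w hw))
  have hA : ∀ j i, ∃ (l : ℤ) (a : ℂ → ℂ), ∀ᶠ k : ℝ in atBot,
      DifferentiableOn ℂ a (ball 0 (Real.exp k)) ∧ ∀ s : ℂ, s.re < k →
        (M.A i).evalEval (θ (N * s)) (α j (N * s)) = Complex.exp (l * s + a (Complex.exp s)) := by
    intro j i
    exact logform c₀ N hN (fun w => (M.A i).evalEval (θ w) (α j w))
      (diff_evalEval hθ.differentiableOn (hα j) _)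
      (fun w hw => by simp only [hperN, hαper j w hw]) (hgrow.evalEval (hαg j) _)
      (fun w hw => M.A_ne _ _ (he w hw) (hr0 j w hw) i)
  obtain ⟨lb, ab, hb⟩ := logform c₀ N hN (fun w => M.b.eval (θ w))
      (M.b.differentiable.comp hθ).differentiableOn
      (fun w _ => by simp only [hperN]) (hgrow.eval _)
      (fun w hw => M.b_ne _ (he w hw))
  choose l a hla using hA
  have hall := eventually_all.2 fun j => eventually_all.2 (hla j)
  obtain ⟨k', ⟨hk1, hk2⟩, hk3⟩ := ((hall.and hb).and (eventually_lt_atBot (c₀ / N))).exists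
  obtain ⟨k, rfl⟩ : ∃ k, k' = k + 2 := ⟨k' - 2, by ring⟩
  have hsh : ∀ s : ℂ, s.re < 2 → (s + k).re < k + 2 := by
    intro s hs
    rw [Complex.add_re, Complex.ofReal_re]
    linarith
  have hre : ∀ s : ℂ, ((N : ℂ) * (s + k)).re = N * (s.re + k) := by
    intro s
    simp
  have hin : ∀ s : ℂ, s.re < 2 → ((N : ℂ) * (s + k)).re < c₀ := by
    intro s hs
    rw [hre]
    have h1 := (lt_div_iff₀ hNr).1 hk3
    nlinarith
  have hmaps : MapsTo (fun τ : ℂ => Complex.exp k * τ) (ball 0 (Real.exp 2))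
      (ball 0 (Real.exp (k + 2))) := by
    intro τ hτ
    rw [mem_ball_zero_iff] at hτ ⊢
    rw [norm_mul, Complex.norm_exp, Complex.ofReal_re, Real.exp_add]
    exact mul_lt_mul_of_pos_left hτ (Real.exp_pos _)
  have hlin : DifferentiableOn ℂ (fun τ : ℂ => Complex.exp k * τ) (ball 0 (Real.exp 2)) := by
    fun_prop
  have haff : Differentiable ℂ (fun s : ℂ => (N : ℂ) * (s + k)) := by fun_prop
  let p : Fin M.R.natDegree → Punct M := fun j =>
    { v := fun i => l j i - lb
      a := fun τ i => k * ((l j i - lb : ℤ) : ℂ) + a j i (Complex.exp k * τ)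
        - ab (Complex.exp k * τ)
      γ := fun s => (θ (N * (s + k)), α j (N * (s + k)))
      ha := by
        rw [differentiableOn_pi]
        intro i
        exact ((differentiableOn_const _).add ((hk1 j i).1.comp hlin hmaps)).sub
          (hk2.1.comp hlin hmaps)
      hγ := ((hθ.comp haff).differentiableOn).prodMk
        ((hα j).comp haff.differentiableOn (fun s hs => hin s hs))
      mem := by
        intro s hs
        refine ⟨⟨he _ (hin s hs), hr0 j _ (hin s hs)⟩, fun i => ?_⟩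
        have h1 := (hk1 j i).2 _ (hsh s hs)
        have h2 := hk2.2 _ (hsh s hs)
        have h3 : Complex.exp k * Complex.exp s = Complex.exp (s + k) := by
          rw [Complex.exp_add, mul_comm]
        show Complex.exp _ = (M.A i).evalEval (θ (N * (s + k))) (α j (N * (s + k))) /
          M.b.eval (θ (N * (s + k)))
        rw [h1, h2, ← Complex.exp_sub]
        simp only [h3]
        congr 1
        push_cast
        ring
      per := by
        intro s hs
        have h1 : (N : ℂ) * (s + 2 * Real.pi * Complex.I + k) =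
            N * (s + k) + 2 * Real.pi * Complex.I * N := by ring
        simp only [h1, hperN, hαper j _ (hin s hs)]
      ncst := by
        intro s _
        have h1 : HasDerivAt (fun s : ℂ => (N : ℂ) * (s + k)) N s := by
          simpa using ((hasDerivAt_id s).add_const (k : ℂ)).const_mul (N : ℂ)
        have h2 := (hθ (N * (s + k))).hasDerivAt.comp s h1
        exact h2.eventually_ne (mul_ne_zero (hθ' _) hNc)
      grow := by
        obtain ⟨C, r, hb⟩ := (hgrow.add (hαg j)).out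
        refine ⟨C * Real.exp (-r * N * k), r * N, fun s hs => ?_⟩
        have h1 := hb _ (hin s hs)
        rw [hre] at h1
        have h2 : C * Real.exp (-r * (N * (s.re + k))) =
            C * Real.exp (-r * N * k) * Real.exp (-(r * N) * s.re) := by
          rw [mul_assoc C, ← Real.exp_add]
          congr 2
          ring
        rw [← h2]
        refine le_trans ?_ h1
        rw [Prod.norm_def]
        exact max_le (le_add_of_nonneg_right (norm_nonneg _))
          (le_add_of_nonneg_left (norm_nonneg _)) }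
  refine ⟨min c₀ (N * k), ⋃ j, range fun σ : ℝ => (p j).γ (σ * Complex.I),
    iUnion_subset fun j => circle_sub (p j), isCompact_iUnion fun j => circle_compact (p j), ?_⟩
  intro w hw v hv
  obtain ⟨j, rfl⟩ := (hroot w (hw.trans_le (min_le_left _ _)) v).1 hv
  refine ⟨p j, fun σ => mem_iUnion.2 ⟨j, σ, rfl⟩, w / N - k, ?_, ?_⟩
  · have h1 : (w / (N : ℂ)).re = w.re / N := by
      rw [← Complex.ofReal_natCast, Complex.div_ofReal_re]
    rw [Complex.sub_re, h1, Complex.ofReal_re, sub_neg, div_lt_iff₀ hNr]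
    have h2 := hw.trans_le (min_le_right _ _)
    linarith
  · have h1 : (N : ℂ) * (w / N - k + k) = w := by field_simp; ring
    show (θ w, α j w) = (θ (N * (w / N - k + k)), α j (N * (w / N - k + k)))
    rw [h1]

theorem fin_end (M : Model n) (β : ℂ) :
    ∃ (c₁ : ℝ) (K : Set (ℂ × ℂ)), K ⊆ M.Γ ∧ IsCompact K ∧ ∀ w : ℂ, w.re < c₁ →
      ∀ v, M.R.evalEval (β + Complex.exp w) v = 0 →
        ∃ p : Punct M, (∀ σ : ℝ, p.γ (σ * Complex.I) ∈ K) ∧
        ∃ s : ℂ, s.re < 0 ∧ (β + Complex.exp w, v) = p.γ s := by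
  have hfin : ({t | M.e.IsRoot t} \ {β}).Finite :=
    (Polynomial.finite_setOfPred_isRoot M.e_ne).sdiff
  have h1 : ({t | M.e.IsRoot t} \ {β})ᶜ ∈ 𝓝 β :=
    hfin.isClosed.isOpen_compl.mem_nhds (by simp)
  obtain ⟨ε, hε, hball⟩ := Metric.mem_nhds_iff.1 h1
  refine one_end M (fun w => β + Complex.exp w) (Real.log ε) (by fun_prop) ?_ ?_ ?_ ?_
  · intro w
    rw [((Complex.hasDerivAt_exp w).const_add β).deriv]
    exact Complex.exp_ne_zero w
  · intro w
    rw [Complex.exp_periodic w]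
  · intro w hw h0
    have h2 : β + Complex.exp w ∈ ball β ε := by
      rw [mem_ball, dist_eq_norm, add_sub_cancel_left, Complex.norm_exp]
      exact (Real.lt_log_iff_exp_lt hε).1 hw
    apply hball h2
    refine ⟨h0, ?_⟩
    simp [Complex.exp_ne_zero]
  · refine (MG.const _ (‖β‖ + ε)).mono fun w hw => ?_
    refine (norm_add_le _ _).trans ?_
    rw [Complex.norm_exp]
    have := (Real.lt_log_iff_exp_lt hε).1 hw
    linarith

theorem inf_end (M : Model n) :
    ∃ (c₁ : ℝ) (K : Set (ℂ × ℂ)), K ⊆ M.Γ ∧ IsCompact K ∧ ∀ w : ℂ, w.re < c₁ →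
      ∀ v, M.R.evalEval (Complex.exp (-w)) v = 0 →
        ∃ p : Punct M, (∀ σ : ℝ, p.γ (σ * Complex.I) ∈ K) ∧
        ∃ s : ℂ, s.re < 0 ∧ (Complex.exp (-w), v) = p.γ s := by
  have hfin : {t | M.e.IsRoot t}.Finite := Polynomial.finite_setOfPred_isRoot M.e_ne
  obtain ⟨B, hB0, hB⟩ := hfin.isBounded.exists_pos_norm_le
  refine one_end M (fun w => Complex.exp (-w)) (-Real.log B) (by fun_prop) ?_ ?_ ?_ ?_
  · intro w
    have h1 := (hasDerivAt_neg w).cexp
    rw [h1.deriv]
    exact mul_ne_zero (Complex.exp_ne_zero _) (by norm_num)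
  · intro w
    rw [Complex.exp_neg, Complex.exp_neg, Complex.exp_periodic w]
  · intro w hw h0
    have h2 := hB _ h0
    rw [Complex.norm_exp, Complex.neg_re] at h2
    have h3 := (Real.le_log_iff_exp_le hB0).2 h2
    linarith
  · refine ⟨B, 1, hB0.le, zero_le_one, fun w _ => le_of_eq ?_⟩
    show ‖Complex.exp (-w)‖ = _
    rw [Complex.norm_exp, Complex.neg_re, one_mul]
    conv_rhs => rw [← Real.exp_log hB0]
    rw [← Real.exp_add, Real.log_exp]
    congr 1
    ring

end Cptaux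

variable {n : ℕ}

theorem cpt (M : Model n) : ∃ K : Set (ℂ × ℂ), K ⊆ M.Γ ∧ IsCompact K ∧
    ∀ q ∈ M.Γ, q ∈ K ∨ ∃ p : Punct M, (∀ σ : ℝ, p.γ (σ * Complex.I) ∈ K) ∧
      ∃ s : ℂ, s.re < 0 ∧ q = p.γ s := by
  choose c K hK1 hK2 hK3 using Cptaux.fin_end M
  obtain ⟨c', K', hK1', hK2', hK3'⟩ := Cptaux.inf_end M
  have hfin : {t | M.e.IsRoot t}.Finite := Polynomial.finite_setOfPred_isRoot M.e_ne
  let K₀ : Set (ℂ × ℂ) := {q | M.R.evalEval q.1 q.2 = 0 ∧ ‖q.1‖ ≤ Real.exp (-c') ∧
    ∀ β ∈ {t | M.e.IsRoot t}, Real.exp (c β) ≤ ‖q.1 - β‖}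
  have h0 : K₀ ⊆ M.Γ := by
    rintro q ⟨h1, _, h3⟩
    refine ⟨fun h => ?_, h1⟩
    have h4 := h3 q.1 h
    rw [sub_self, norm_zero] at h4
    exact absurd h4 (not_le.2 (Real.exp_pos _))
  have hc0 : IsCompact K₀ := by
    obtain ⟨B, hB⟩ := (isCompact_closedBall (0 : ℂ) (Real.exp (-c'))).bddAbove_image
      (f := fun z => 1 + ∑ i ∈ Finset.range M.R.natDegree, ‖(M.R.coeff i).eval z‖)
      (by
        apply Continuous.continuousOn
        exact continuous_const.add
          (continuous_finsetSum _ fun i _ => (M.R.coeff i).continuous.norm))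
    refine ((isCompact_closedBall (0 : ℂ) (Real.exp (-c'))).prod
      (isCompact_closedBall (0 : ℂ) B)).of_isClosed_subset ?_ ?_
    · have h1 : K₀ = {q : ℂ × ℂ | M.R.evalEval q.1 q.2 = 0} ∩
          ({q : ℂ × ℂ | ‖q.1‖ ≤ Real.exp (-c')} ∩
            ⋂ β ∈ {t | M.e.IsRoot t}, {q : ℂ × ℂ | Real.exp (c β) ≤ ‖q.1 - β‖}) := by
        ext q
        simp only [K₀, mem_inter_iff, mem_iInter, mem_ofPred_eq]
      rw [h1]
      refine (isClosed_eq (Cptaux.cont_evalEval _) continuous_const).inter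
        ((isClosed_le (by fun_prop) continuous_const).inter ?_)
      exact isClosed_biInter fun β _ => isClosed_le continuous_const (by fun_prop)
    · rintro q ⟨h1, h2, _⟩
      have h3 : q.1 ∈ closedBall (0 : ℂ) (Real.exp (-c')) := mem_closedBall_zero_iff.2 h2
      exact ⟨h3, mem_closedBall_zero_iff.2
        ((Cptaux.root_bound M.monic _ _ h1).trans (hB (mem_image_of_mem _ h3)))⟩
  refine ⟨K₀ ∪ (K' ∪ ⋃ β ∈ {t | M.e.IsRoot t}, K β),
    union_subset h0 (union_subset hK1' (iUnion₂_subset fun β _ => hK1 β)),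
    hc0.union (hK2'.union (hfin.isCompact_biUnion fun β _ => hK2 β)), ?_⟩
  rintro ⟨t, v⟩ ⟨hq1, hq2⟩
  have hq1 : M.e.eval t ≠ 0 := hq1
  have hq2 : M.R.evalEval t v = 0 := hq2
  by_cases h1 : ‖t‖ ≤ Real.exp (-c')
  · by_cases h2 : ∀ β ∈ {t | M.e.IsRoot t}, Real.exp (c β) ≤ ‖t - β‖
    · exact Or.inl (Or.inl ⟨hq2, h1, h2⟩)
    · right
      push Not at h2
      obtain ⟨β, hβ, h2⟩ := h2
      have h3 : t - β ≠ 0 := by
        intro h
        rw [sub_eq_zero] at h
        exact hq1 (h ▸ hβ)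
      have h4 : β + Complex.exp (Complex.log (t - β)) = t := by
        rw [Complex.exp_log h3]; ring
      have h5 : (Complex.log (t - β)).re < c β := by
        rw [Complex.log_re]
        exact (Real.log_lt_iff_lt_exp (norm_pos_iff.2 h3)).2 h2
      obtain ⟨p, hp1, s, hs1, hs2⟩ := hK3 β _ h5 v (by rw [h4]; exact hq2)
      refine ⟨p, fun σ => Or.inr (Or.inr (mem_biUnion hβ (hp1 σ))), s, hs1, ?_⟩
      rw [← hs2, h4]
  · right
    push Not at h1
    have h3 : 0 < ‖t‖ := (Real.exp_pos _).trans h1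
    have h4 : Complex.exp (- -Complex.log t) = t := by
      rw [neg_neg, Complex.exp_log (norm_pos_iff.1 h3)]
    have h5 : (-Complex.log t).re < c' := by
      rw [Complex.neg_re, Complex.log_re]
      have := (Real.lt_log_iff_exp_lt h3).2 h1
      linarith
    obtain ⟨p, hp1, s, hs1, hs2⟩ := hK3' _ h5 v (by rw [h4]; exact hq2)
    refine ⟨p, fun σ => Or.inr (Or.inl (hp1 σ)), s, hs1, ?_⟩
    rw [← hs2, h4]

end Pool.Agent.H195Z.EC
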