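import Mathlib
import Pool.Agent.H195Z.EC.Defs
import Pool.Agent.Helper272.Arn.J5759

/-! # Periodic holomorphic functions of exponential growth on a half plane -/

set_option autoImplicit false

open Polynomial Set Filter Topology Metric

namespace Pool.Agent.H195Z.EC

variable {n : ℕ}

namespace LaurentAux

lemma per_int {c₀ : ℝ} {h : ℂ → ℂ}
    (hper : ∀ s : ℂ, s.re < c₀ → h (s + 2 * Real.pi * Complex.I) = h s) (k : ℤ) :
    ∀ s : ℂ, s.re < c₀ → h (s + k * (2 * Real.pi * Complex.I)) = h s := by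
  induction k using Int.induction_on with
  | zero => intro s _; simp
  | succ m ih =>
    intro s hs
    have e : s + (((m : ℤ) + 1 : ℤ) : ℂ) * (2 * Real.pi * Complex.I) =
        (s + ((m : ℤ) : ℂ) * (2 * Real.pi * Complex.I)) + 2 * Real.pi * Complex.I := by
      push_cast; ring
    rw [e, hper _ (by simpa using hs), ih s hs]
  | pred m ih =>
    intro s hs
    have e : s + ((-(m : ℤ) : ℤ) : ℂ) * (2 * Real.pi * Complex.I) =
        (s + ((-(m : ℤ) - 1 : ℤ) : ℂ) * (2 * Real.pi * Complex.I)) + 2 * Real.pi * Complex.I := by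
      push_cast; ring
    rw [← hper _ (by simpa using hs), ← e, ih s hs]

lemma eq_of_exp_eq {c₀ : ℝ} {h : ℂ → ℂ}
    (hper : ∀ s : ℂ, s.re < c₀ → h (s + 2 * Real.pi * Complex.I) = h s) {a b : ℂ}
    (hb : b.re < c₀) (e : Complex.exp a = Complex.exp b) : h a = h b := by
  obtain ⟨k, rfl⟩ := Complex.exp_eq_exp_iff_exists_int.1 e
  exact per_int hper k b hb

/-- holomorphic of exponential growth on `Re s < 2` -/
def Good (f : ℂ → ℂ) : Prop :=
  DifferentiableOn ℂ f {s | s.re < 2} ∧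
    ∃ C r : ℝ, ∀ s : ℂ, s.re < 2 → ‖f s‖ ≤ C * Real.exp (-r * s.re)

lemma bound_mono {x C r r' t : ℝ} (ht : t < 2) (hr : r ≤ r') (h : x ≤ C * Real.exp (-r * t)) :
    x ≤ |C| * Real.exp (2 * (r' - r)) * Real.exp (-r' * t) := by
  rw [mul_assoc, ← Real.exp_add]
  refine h.trans (mul_le_mul (le_abs_self C) (Real.exp_le_exp.2 ?_) (Real.exp_pos _).le
    (abs_nonneg C))
  nlinarith

lemma Good.const (c : ℂ) : Good fun _ => c :=
  ⟨differentiableOn_const c, ‖c‖, 0, fun s _ => by simp⟩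

lemma Good.add {f g : ℂ → ℂ} (hf : Good f) (hg : Good g) : Good fun s => f s + g s := by
  obtain ⟨h1, C, r, h2⟩ := hf
  obtain ⟨h3, C', r', h4⟩ := hg
  refine ⟨h1.add h3, |C| * Real.exp (2 * (max r r' - r)) + |C'| * Real.exp (2 * (max r r' - r')),
    max r r', fun s hs => (norm_add_le _ _).trans ?_⟩
  rw [add_mul]
  exact add_le_add (bound_mono hs (le_max_left _ _) (h2 s hs))
    (bound_mono hs (le_max_right _ _) (h4 s hs))

lemma Good.mul {f g : ℂ → ℂ} (hf : Good f) (hg : Good g) : Good fun s => f s * g s := by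
  obtain ⟨h1, C, r, h2⟩ := hf
  obtain ⟨h3, C', r', h4⟩ := hg
  refine ⟨h1.mul h3, C * C', r + r', fun s hs => ?_⟩
  rw [norm_mul]
  calc ‖f s‖ * ‖g s‖ ≤ (C * Real.exp (-r * s.re)) * (C' * Real.exp (-r' * s.re)) :=
        mul_le_mul (h2 s hs) (h4 s hs) (norm_nonneg _) ((norm_nonneg _).trans (h2 s hs))
    _ = C * C' * Real.exp (-(r + r') * s.re) := by
        rw [show -(r + r') * s.re = -r * s.re + -r' * s.re by ring, Real.exp_add]; ring

lemma Good.pow {f : ℂ → ℂ} (hf : Good f) (k : ℕ) : Good fun s => f s ^ k := by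
  induction k with
  | zero => simpa using Good.const 1
  | succ k ih => simpa [pow_succ] using ih.mul hf

lemma Good.eval {x : ℂ → ℂ} (hx : Good x) (q : ℂ[X]) : Good fun s => q.eval (x s) := by
  induction q using Polynomial.induction_on' with
  | add p q hp hq => simpa [eval_add] using hp.add hq
  | monomial k a => simpa [eval_monomial] using (Good.const a).mul (hx.pow k)

lemma Good.evalEval {x y : ℂ → ℂ} (hx : Good x) (hy : Good y) (q : ℂ[X][X]) :
    Good fun s => q.evalEval (x s) (y s) := by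
  induction q using Polynomial.induction_on' with
  | add p q hp hq => simpa [evalEval_add] using hp.add hq
  | monomial k a =>
    simpa [← C_mul_X_pow_eq_monomial, evalEval_mul, evalEval_C, evalEval_pow, evalEval_X]
      using (hx.eval a).mul (hy.pow k)

end LaurentAux

open LaurentAux

theorem laurent2 (c₀ : ℝ) (g : ℂ → ℂ) (hg : DifferentiableOn ℂ g {s | s.re < c₀})
    (hper : ∀ s : ℂ, s.re < c₀ → g (s + 2 * Real.pi * Complex.I) = g s)
    (C r : ℝ) (hgrow : ∀ s : ℂ, s.re < c₀ → ‖g s‖ ≤ C * Real.exp (-r * s.re)) :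
    (∀ s : ℂ, s.re < c₀ → g s = 0) ∨ ∃ (l : ℤ) (G : ℂ → ℂ),
      DifferentiableOn ℂ G (ball 0 (Real.exp c₀)) ∧ G 0 ≠ 0 ∧
      ∀ s : ℂ, s.re < c₀ → g s = Complex.exp (l * s) * G (Complex.exp s) := by
  rcases AR.J5759.laurent c₀ 1 one_pos g hg (by simpa using hper) C r hgrow with
    h | ⟨l, G, hG1, hG2, c₁, hc₁, h⟩
  · exact Or.inl h
  right
  simp only [Nat.cast_one, div_one] at h
  classical
  let k : ℂ → ℂ := fun s => g s * Complex.exp (-(l * s))
  have hkper : ∀ s : ℂ, s.re < c₀ → k (s + 2 * Real.pi * Complex.I) = k s := by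
    intro s hs
    simp only [k]
    rw [hper s hs]
    congr 1
    rw [Complex.exp_eq_exp_iff_exists_int]
    exact ⟨-l, by push_cast; ring⟩
  have hHo : IsOpen {w : ℂ | w.re < c₀} := isOpen_lt Complex.continuous_re continuous_const
  have hkd : ∀ s : ℂ, s.re < c₀ → DifferentiableAt ℂ k s := fun s hs =>
    (hg.differentiableAt (hHo.mem_nhds hs)).mul (by fun_prop)
  have hlog : ∀ (c : ℝ) (τ : ℂ), τ ≠ 0 → τ ∈ ball (0 : ℂ) (Real.exp c) → (Complex.log τ).re < c := by
    intro c τ h0 hτ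
    rw [Complex.log_re, Real.log_lt_iff_lt_exp (norm_pos_iff.2 h0)]
    simpa using hτ
  refine ⟨l, fun τ => if τ = 0 then G 0 else k (Complex.log τ), fun τ₀ hτ₀ => ?_, by simpa using hG2,
    fun s hs => ?_⟩
  · refine DifferentiableAt.differentiableWithinAt ?_
    by_cases h0 : τ₀ = 0
    · subst h0
      refine hG1.differentiableAt.congr_of_eventuallyEq ?_
      filter_upwards [ball_mem_nhds (0 : ℂ) (Real.exp_pos c₁)] with τ hτ
      by_cases h1 : τ = 0
      · simp [h1]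
      · simp only [if_neg h1, k]
        rw [h _ (hlog c₁ τ h1 hτ), Complex.exp_log h1, mul_right_comm, ← Complex.exp_add]
        simp
    · have h1 : DifferentiableAt ℂ (fun τ => Complex.log τ₀ + Complex.log (τ / τ₀)) τ₀ := by
        refine DifferentiableAt.const_add _ (DifferentiableAt.clog (by fun_prop) ?_)
        rw [div_self h0]
        exact Complex.one_mem_slitPlane
      have h2 : DifferentiableAt ℂ (fun τ => k (Complex.log τ₀ + Complex.log (τ / τ₀))) τ₀ := by
        refine DifferentiableAt.comp τ₀ (g := k) ?_ h1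
        rw [div_self h0, Complex.log_one, add_zero]
        exact hkd _ (hlog c₀ τ₀ h0 hτ₀)
      refine h2.congr_of_eventuallyEq ?_
      filter_upwards [isOpen_ball.mem_nhds hτ₀, isOpen_ne.mem_nhds h0] with τ hτ hτ0
      rw [if_neg hτ0]
      symm
      refine eq_of_exp_eq hkper (hlog c₀ τ hτ0 hτ) ?_
      rw [Complex.exp_add, Complex.exp_log h0, Complex.exp_log (div_ne_zero hτ0 h0),
        Complex.exp_log hτ0, mul_div_cancel₀ _ h0]
  · simp only [if_neg (Complex.exp_ne_zero s)]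
    rw [eq_of_exp_eq hkper hs (Complex.exp_log (Complex.exp_ne_zero s))]
    simp only [k]
    rw [mul_left_comm, ← Complex.exp_add]
    simp

theorem Punct.family {M : Model n} (p : Punct M) {ι : Type} [Fintype ι] (c : ι → ℂ[X][X])
    (hc : ∃ i, ¬ M.R ∣ c i) :
    ∃ (l : ℤ) (G : ι → ℂ → ℂ), (∀ i, DifferentiableOn ℂ (G i) (ball 0 (Real.exp 2))) ∧
      (∃ i, G i 0 ≠ 0) ∧ ∀ i, ∀ s : ℂ, s.re < 2 →
        (c i).evalEval (p.γ s).1 (p.γ s).2 = Complex.exp (l * s) * G i (Complex.exp s) := by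
  classical
  obtain ⟨C, r, hCr⟩ := p.grow
  have hx : Good fun s => (p.γ s).1 :=
    ⟨p.hγ.fst, C, r, fun s hs => (norm_fst_le _).trans (hCr s hs)⟩
  have hy : Good fun s => (p.γ s).2 :=
    ⟨p.hγ.snd, C, r, fun s hs => (norm_snd_le _).trans (hCr s hs)⟩
  let Z : ι → Prop := fun i => ∀ s : ℂ, s.re < 2 → (c i).evalEval (p.γ s).1 (p.γ s).2 = 0
  have h1 : ∀ i, ∃ (l : ℤ) (G : ℂ → ℂ), ¬ Z i → DifferentiableOn ℂ G (ball 0 (Real.exp 2)) ∧
      G 0 ≠ 0 ∧ ∀ s : ℂ, s.re < 2 →
        (c i).evalEval (p.γ s).1 (p.γ s).2 = Complex.exp (l * s) * G (Complex.exp s) := by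
    intro i
    obtain ⟨hd, C', r', hb⟩ := hx.evalEval hy (c i)
    rcases laurent2 2 _ hd (fun s hs => by simp only [p.per s hs]) C' r' hb with h | ⟨l, G, h⟩
    · exact ⟨0, 0, fun hn => absurd h hn⟩
    · exact ⟨l, G, fun _ => h⟩
  choose l G hG using h1
  have hne : (Finset.univ.filter fun i => ¬ Z i).Nonempty := by
    obtain ⟨i, hi⟩ := hc
    refine ⟨i, Finset.mem_filter.2 ⟨Finset.mem_univ _, fun hZ => hi ?_⟩⟩
    refine dens M.monic M.irr _ fun hfin => ?_
    have hHo : IsOpen {w : ℂ | w.re < 2} := isOpen_lt Complex.continuous_re continuous_const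
    have h0 : (0 : ℂ) ∈ {w : ℂ | w.re < 2} := by simp
    have hcont : ContinuousAt (fun s => (p.γ s).1) 0 :=
      (hx.1.differentiableAt (hHo.mem_nhds h0)).continuousAt
    have hcl := (hfin.subset (sdiff_subset (t := {(p.γ 0).1}))).isClosed
    have e1 : ∀ᶠ s in 𝓝 (0 : ℂ), (p.γ s).1 ∉ {t | ∃ w, M.R.evalEval t w = 0 ∧
        (c i).evalEval t w = 0} \ {(p.γ 0).1} :=
      hcont.eventually (hcl.isOpen_compl.mem_nhds (by simp))
    obtain ⟨s, hs1, hs2, hs3⟩ := ((p.ncst 0 h0).and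
      ((e1.and (hHo.mem_nhds h0)).filter_mono nhdsWithin_le_nhds)).exists
    exact hs2 ⟨⟨(p.γ s).2, (p.mem s hs3).1.2, hZ s hs3⟩, hs1⟩
  obtain ⟨i₁, hi₁, hmin⟩ := Finset.exists_min_image _ l hne
  have hZ₁ : ¬ Z i₁ := (Finset.mem_filter.1 hi₁).2
  refine ⟨l i₁, fun i τ => if Z i then 0 else τ ^ (l i - l i₁).toNat * G i τ, fun i => ?_,
    ⟨i₁, by simpa [hZ₁] using (hG i₁ hZ₁).2.1⟩, fun i s hs => ?_⟩
  · by_cases hZ : Z i
    · simp [hZ]
    · simp only [if_neg hZ]
      exact (differentiableOn_pow _).mul (hG i hZ).1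
  · by_cases hZ : Z i
    · simp only [if_pos hZ, mul_zero]
      exact hZ s hs
    · simp only [if_neg hZ]
      have hle : l i₁ ≤ l i := hmin i (Finset.mem_filter.2 ⟨Finset.mem_univ _, hZ⟩)
      rw [(hG i hZ).2.2 s hs, ← mul_assoc, ← Complex.exp_nat_mul, ← Complex.exp_add]
      congr 2
      have e : (((l i - l i₁).toNat : ℤ) : ℂ) = ((l i - l i₁ : ℤ) : ℂ) := by
        rw [Int.toNat_of_nonneg (by omega)]
      push_cast at e
      rw [e]
      ring

end Pool.Agent.H195Z.EC
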