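import Mathlib

/-!
# A lower bound in a half plane (Borel-Caratheodory and Phragmen-Lindelof)
-/

set_option autoImplicit false

open Set Filter Topology Metric

namespace Pool.Agent.H195Z.EC

namespace PLaux

/-- lower bound for a bounded zero-free holomorphic function on the unit disc -/
theorem disc_lower (F : ℂ → ℂ) (hF : DifferentiableOn ℂ F (ball 0 1))
    (hne : ∀ u ∈ ball (0 : ℂ) 1, F u ≠ 0) (B : ℝ) (hB : 0 < B)
    (hA : ∀ u ∈ ball (0 : ℂ) 1, ‖F u‖ ≤ ‖F 0‖ * Real.exp B) :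
    ∀ u ∈ ball (0 : ℂ) 1, ‖F 0‖ * Real.exp (-(2 * B * ‖u‖ / (1 - ‖u‖))) ≤ ‖F u‖ := by
  have hd : DifferentiableOn ℂ (fun u => deriv F u / F u) (ball 0 1) :=
    (hF.deriv isOpen_ball).div hF hne
  obtain ⟨h, h0, hh⟩ := hd.isExactOn_ball.with_val_at 0 0
  have hhd : DifferentiableOn ℂ h (ball 0 1) := fun u hu =>
    (hh u hu).differentiableAt.differentiableWithinAt
  have hder : ∀ u ∈ ball (0 : ℂ) 1, HasDerivAt (fun u => F u * Complex.exp (-h u)) 0 u := by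
    intro u hu
    have h1 : HasDerivAt F (deriv F u) u :=
      (hF.differentiableAt (isOpen_ball.mem_nhds hu)).hasDerivAt
    have h2 := (hh u hu).neg.cexp
    have h3 := h1.mul h2
    have h4 : deriv F u * Complex.exp (-h u) +
        F u * (Complex.exp (-h u) * -(deriv F u / F u)) = 0 := by
      have := hne u hu
      field_simp
      ring
    exact h4 ▸ h3
  have hconst : ∀ u ∈ ball (0 : ℂ) 1, F u * Complex.exp (-h u) = F 0 := by
    intro u hu
    have := isOpen_ball.is_const_of_deriv_eq_zero (convex_ball (0 : ℂ) 1).isPreconnected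
      (f := fun u => F u * Complex.exp (-h u))
      (fun u hu => (hder u hu).differentiableAt.differentiableWithinAt)
      (fun u hu => (hder u hu).deriv) hu (mem_ball_self one_pos)
    simpa [h0] using this
  have hnorm : ∀ u ∈ ball (0 : ℂ) 1, ‖F u‖ = ‖F 0‖ * Real.exp (h u).re := by
    intro u hu
    rw [← hconst u hu, norm_mul, Complex.norm_exp, mul_assoc, ← Real.exp_add]
    simp
  have hF0 : 0 < ‖F 0‖ := norm_pos_iff.mpr (hne 0 (mem_ball_self one_pos))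
  have hre : MapsTo h (ball 0 1) {z : ℂ | z.re ≤ B} := by
    intro u hu
    have h1 := hA u hu
    rw [hnorm u hu] at h1
    have h2 := le_of_mul_le_mul_left h1 hF0
    exact Real.exp_le_exp.mp h2
  intro u hu
  have hb := Complex.borelCaratheodory_zero hB hhd hre one_pos hu h0
  rw [hnorm u hu]
  have h4 : -(2 * B * ‖u‖ / (1 - ‖u‖)) ≤ (h u).re := by
    have := Complex.abs_re_le_norm (h u)
    have := neg_abs_le (h u).re
    linarith
  exact mul_le_mul_of_nonneg_left (Real.exp_le_exp.mpr h4) hF0.le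

theorem mu_re (σ : ℝ) (u : ℂ) (hu : u ∈ ball (0 : ℂ) 1) :
    (σ * Complex.I - 2 * u / (1 - u) : ℂ).re < 1 := by
  have hu1 : ‖u‖ < 1 := by simpa using hu
  have hne : (1 - u : ℂ) ≠ 0 := by
    intro h
    have : u = 1 := by linear_combination -h
    rw [this] at hu1
    simp at hu1
  have hpos : 0 < Complex.normSq (1 - u) := Complex.normSq_pos.mpr hne
  have hsq : u.re * u.re + u.im * u.im < 1 := by
    have h1 : Complex.normSq u = ‖u‖ ^ 2 := Complex.normSq_eq_norm_sq u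
    rw [Complex.normSq_apply] at h1
    have : ‖u‖ ^ 2 < 1 := by
      have := norm_nonneg u
      nlinarith
    linarith
  have hN : Complex.normSq (1 - u) = (1 - u.re) * (1 - u.re) + u.im * u.im := by
    rw [Complex.normSq_apply]; simp
  rw [Complex.sub_re, Complex.div_re]
  simp only [Complex.mul_re, Complex.ofReal_re, Complex.I_re, Complex.ofReal_im, Complex.I_im,
    Complex.re_ofNat, Complex.im_ofNat, Complex.sub_re, Complex.one_re, Complex.mul_im,
    Complex.sub_im, Complex.one_im]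
  have key : -1 < ((2 * u.re - 0 * u.im) * (1 - u.re) + (2 * u.im + 0 * u.re) * (0 - u.im)) /
      Complex.normSq (1 - u) := by
    rw [lt_div_iff₀ hpos, hN]
    nlinarith
  rw [add_div] at key
  linarith

/-- lower bound for a bounded zero-free holomorphic function on the half plane -/
theorem half_lower (F : ℂ → ℂ) (hF : DifferentiableOn ℂ F {s | s.re < 1})
    (hne : ∀ s : ℂ, s.re < 1 → F s ≠ 0) (σ B : ℝ) (hB : 0 < B)
    (hA : ∀ s : ℂ, s.re < 1 → ‖F s‖ ≤ ‖F (σ * Complex.I)‖ * Real.exp B) (L : ℝ) (hL : 0 ≤ L) :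
    ‖F (σ * Complex.I)‖ * Real.exp (-(B * L)) ≤ ‖F (σ * Complex.I - L)‖ := by
  have hμ : DifferentiableOn ℂ (fun u : ℂ => (σ * Complex.I - 2 * u / (1 - u) : ℂ))
      (ball 0 1) := by
    refine (differentiableOn_const _).sub (DifferentiableOn.div (by fun_prop) (by fun_prop) ?_)
    intro u hu h
    have hu1 : ‖u‖ < 1 := by simpa using hu
    have : u = 1 := by linear_combination -h
    rw [this] at hu1
    simp at hu1
  have hG : DifferentiableOn ℂ (fun u : ℂ => F (σ * Complex.I - 2 * u / (1 - u)))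
      (ball 0 1) := hF.comp hμ (fun u hu => mu_re σ u hu)
  have h2L : (0 : ℝ) < 2 + L := by linarith
  have hn : ‖((L / (2 + L) : ℝ) : ℂ)‖ = L / (2 + L) := by
    rw [Complex.norm_real, Real.norm_eq_abs, abs_of_nonneg (by positivity)]
  have hu0 : ((L / (2 + L) : ℝ) : ℂ) ∈ ball (0 : ℂ) 1 := by
    rw [mem_ball_zero_iff, hn, div_lt_one h2L]
    linarith
  have key := disc_lower _ hG (fun u hu => hne _ (mu_re σ u hu)) B hB
    (fun u hu => by simpa using hA _ (mu_re σ u hu)) _ hu0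
  have e1 : 2 * B * (L / (2 + L)) / (1 - L / (2 + L)) = B * L := by
    have : 1 - L / (2 + L) = 2 / (2 + L) := by field_simp; ring
    rw [this]
    field_simp
  have e2 : (2 * ((L / (2 + L) : ℝ) : ℂ) / (1 - ((L / (2 + L) : ℝ) : ℂ)) : ℂ) = (L : ℂ) := by
    have h3 : (2 * (L / (2 + L)) / (1 - L / (2 + L)) : ℝ) = L := by
      have : 1 - L / (2 + L) = 2 / (2 + L) := by field_simp; ring
      rw [this]
      field_simp
    exact_mod_cast congrArg (fun x : ℝ => (x : ℂ)) h3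
  rw [hn, e1] at key
  simp only [e2] at key
  simpa using key

theorem one_le_norm (s : ℂ) (hs : s.re < 1) : 1 ≤ ‖s - 2‖ := by
  have h1 := Complex.abs_re_le_norm (s - 2)
  have h2 : (s - 2).re = s.re - 2 := by simp
  have := neg_abs_le (s - 2).re
  have := neg_le_abs (s - 2).re
  linarith

theorem one_add_le (s : ℂ) (hs : s.re < 1) : 1 + ‖s‖ ≤ 4 * ‖s - 2‖ := by
  have h1 := one_le_norm s hs
  have h2 : ‖s‖ ≤ ‖s - 2‖ + ‖(2 : ℂ)‖ := by
    simpa using norm_add_le (s - 2) 2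
  have h3 : ‖(2 : ℂ)‖ = 2 := by simp
  linarith

theorem im_le (s : ℂ) (hs : s.re ≤ 0) : ‖(s.im * Complex.I - 2 : ℂ)‖ ≤ ‖s - 2‖ := by
  rw [← sq_le_sq₀ (norm_nonneg _) (norm_nonneg _), ← Complex.normSq_eq_norm_sq,
    ← Complex.normSq_eq_norm_sq, Complex.normSq_apply, Complex.normSq_apply]
  simp
  nlinarith

/-- the growth estimate -/
theorem growth (f : ℂ → ℂ) (d : ℕ) (c : ℝ)
    (hf : DifferentiableOn ℂ f {s | s.re < 1}) (hne : ∀ s : ℂ, s.re < 1 → f s ≠ 0)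
    (hup : ∃ M : ℝ, ∀ s : ℂ, s.re < 1 → ‖f s‖ ≤ M * (1 + ‖s‖) ^ d)
    (hc : 0 < c) (hlow : ∀ σ : ℝ, c ≤ ‖f (σ * Complex.I)‖ * ‖(σ * Complex.I - 2 : ℂ)‖ ^ d) :
    ∃ K : ℝ, ∀ s : ℂ, s.re ≤ 0 → 2 ≤ ‖s‖ →
      c * Real.exp (-(K * ‖s‖ ^ (3 / 2 : ℝ))) ≤ ‖f s‖ * ‖s - 2‖ ^ d := by
  obtain ⟨M, hM⟩ := hup
  have hs2 : ∀ s : ℂ, s.re < 1 → s - 2 ≠ 0 := fun s hs =>
    norm_pos_iff.mp (lt_of_lt_of_le one_pos (one_le_norm s hs))
  set F : ℂ → ℂ := fun s => f s / (s - 2) ^ d with hFdef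
  have hF : DifferentiableOn ℂ F {s | s.re < 1} :=
    hf.div (by fun_prop) (fun s hs => pow_ne_zero _ (hs2 s hs))
  have hFne : ∀ s : ℂ, s.re < 1 → F s ≠ 0 := fun s hs =>
    div_ne_zero (hne s hs) (pow_ne_zero _ (hs2 s hs))
  have hFn : ∀ s : ℂ, s.re < 1 → ‖f s‖ = ‖F s‖ * ‖s - 2‖ ^ d := by
    intro s hs
    have : 0 < ‖s - 2‖ := norm_pos_iff.mpr (hs2 s hs)
    simp only [hFdef, norm_div, norm_pow]
    field_simp
  set A : ℝ := |M| * 4 ^ d with hA
  have hA0 : 0 ≤ A := by positivity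
  have hFA : ∀ s : ℂ, s.re < 1 → ‖F s‖ ≤ A := by
    intro s hs
    have h0 : 0 < ‖s - 2‖ ^ d := pow_pos (norm_pos_iff.mpr (hs2 s hs)) d
    have h1 := hM s hs
    rw [hFn s hs] at h1
    have h2 : (1 + ‖s‖) ^ d ≤ (4 * ‖s - 2‖) ^ d :=
      pow_le_pow_left₀ (by positivity) (one_add_le s hs) d
    have h3 : M * (1 + ‖s‖) ^ d ≤ |M| * (4 * ‖s - 2‖) ^ d :=
      le_trans (mul_le_mul_of_nonneg_right (le_abs_self M) (by positivity))
        (mul_le_mul_of_nonneg_left h2 (abs_nonneg M))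
    rw [mul_pow, ← mul_assoc] at h3
    exact le_of_mul_le_mul_right (h1.trans h3) h0
  refine ⟨A / c + 1 + 6 * d, fun s hs hs2' => ?_⟩
  set σ := s.im with hσ
  set N : ℝ := ‖(σ * Complex.I - 2 : ℂ)‖ with hN
  have hσre : (σ * Complex.I : ℂ).re < 1 := by simp
  have hN1 : 1 ≤ N := one_le_norm _ hσre
  have hNle : N ≤ ‖s - 2‖ := im_le s hs
  have hlow' : c ≤ ‖F (σ * Complex.I)‖ * N ^ d * N ^ d := by
    have := hlow σ
    rwa [hFn _ hσre] at this
  set r : ℝ := ‖s‖ with hr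
  have hr0 : 0 ≤ r := norm_nonneg s
  have hsq1 : 1 ≤ Real.sqrt r := by
    rw [Real.one_le_sqrt]; linarith
  have hNr : N ≤ Real.exp (3 * Real.sqrt r) := by
    have h1 : ‖s - 2‖ ≤ r + 2 := by
      have := norm_sub_le s 2
      simpa using this
    have h2 : 1 + 3 * Real.sqrt r + (3 * Real.sqrt r) ^ 2 / 2 ≤ Real.exp (3 * Real.sqrt r) :=
      Real.quadratic_le_exp_of_nonneg (by positivity)
    have h3 : Real.sqrt r ^ 2 = r := Real.sq_sqrt hr0
    nlinarith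
  set B : ℝ := A / c + 1 + 6 * d * Real.sqrt r with hB
  have hB0 : 0 < B := by positivity
  have hNd : N ^ d * N ^ d ≤ Real.exp (6 * d * Real.sqrt r) := by
    have h1 : N ^ d ≤ Real.exp (3 * Real.sqrt r) ^ d := pow_le_pow_left₀ (by linarith) hNr d
    rw [← Real.exp_nat_mul] at h1
    calc N ^ d * N ^ d ≤ Real.exp (d * (3 * Real.sqrt r)) * Real.exp (d * (3 * Real.sqrt r)) :=
          mul_le_mul h1 h1 (by positivity) (by positivity)
      _ = Real.exp (6 * d * Real.sqrt r) := by rw [← Real.exp_add]; congr 1; ring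
  have hAB : ∀ z : ℂ, z.re < 1 → ‖F z‖ ≤ ‖F (σ * Complex.I)‖ * Real.exp B := by
    intro z hz
    have h1 : A / c ≤ Real.exp (A / c + 1) := by
      have := Real.add_one_le_exp (A / c + 1)
      linarith
    have h2 : c ≤ ‖F (σ * Complex.I)‖ * Real.exp (6 * d * Real.sqrt r) := by
      refine hlow'.trans ?_
      rw [mul_assoc]
      exact mul_le_mul_of_nonneg_left hNd (norm_nonneg _)
    calc ‖F z‖ ≤ A := hFA z hz
      _ = c * (A / c) := by field_simp
      _ ≤ (‖F (σ * Complex.I)‖ * Real.exp (6 * d * Real.sqrt r)) * Real.exp (A / c + 1) :=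
          mul_le_mul h2 h1 (by positivity) (by positivity)
      _ = ‖F (σ * Complex.I)‖ * Real.exp B := by
          rw [mul_assoc, ← Real.exp_add]; congr 2; rw [hB]; ring
  have key := half_lower F hF hFne σ B hB0 hAB (-s.re) (by linarith)
  have hseq : (σ * Complex.I - ((-s.re : ℝ) : ℂ) : ℂ) = s := by
    apply Complex.ext <;> simp [hσ]
  rw [hseq] at key
  have hL : -s.re ≤ r := by
    have := Complex.abs_re_le_norm s
    have := neg_le_abs s.re
    linarith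
  have h32 : r ^ (3 / 2 : ℝ) = r * Real.sqrt r := by
    rw [Real.sqrt_eq_rpow, show (3 / 2 : ℝ) = 1 + 1 / 2 by norm_num,
      Real.rpow_add (by linarith), Real.rpow_one]
  have hBL : B * (-s.re) ≤ (A / c + 1 + 6 * d) * r ^ (3 / 2 : ℝ) := by
    rw [h32]
    have h1 : B ≤ (A / c + 1 + 6 * d) * Real.sqrt r := by
      have : 0 ≤ A / c + 1 := by positivity
      rw [hB]
      nlinarith
    calc B * (-s.re) ≤ B * r := mul_le_mul_of_nonneg_left hL hB0.le
      _ ≤ ((A / c + 1 + 6 * d) * Real.sqrt r) * r := mul_le_mul_of_nonneg_right h1 hr0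
      _ = _ := by ring
  have hs1 : s.re < 1 := by linarith
  have hNd2 : N ^ d ≤ ‖s - 2‖ ^ d := pow_le_pow_left₀ (by linarith) hNle d
  rw [hFn s hs1]
  calc c * Real.exp (-((A / c + 1 + 6 * d) * r ^ (3 / 2 : ℝ)))
      ≤ (‖F (σ * Complex.I)‖ * N ^ d * N ^ d) * Real.exp (-(B * -s.re)) :=
        mul_le_mul hlow' (Real.exp_le_exp.mpr (by linarith)) (by positivity) (by positivity)
    _ = (‖F (σ * Complex.I)‖ * Real.exp (-(B * -s.re))) * N ^ d * N ^ d := by ring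
    _ ≤ ‖F s‖ * ‖s - 2‖ ^ d * ‖s - 2‖ ^ d := by gcongr

end PLaux

open PLaux in
theorem pl_one (f : ℂ → ℂ) (d : ℕ) (c : ℝ)
    (hf : DifferentiableOn ℂ f {s | s.re < 1}) (hne : ∀ s : ℂ, s.re < 1 → f s ≠ 0)
    (hup : ∃ M : ℝ, ∀ s : ℂ, s.re < 1 → ‖f s‖ ≤ M * (1 + ‖s‖) ^ d)
    (hc : 0 < c) (hlow : ∀ σ : ℝ, c ≤ ‖f (σ * Complex.I)‖ * ‖(σ * Complex.I - 2 : ℂ)‖ ^ d)
    (hre : ∃ δ : ℝ, 0 < δ ∧ ∀ᶠ x : ℝ in atBot, δ ≤ ‖f x‖) :
    ∀ s : ℂ, s.re ≤ 0 → c ≤ ‖f s‖ * ‖s - 2‖ ^ d := by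
  obtain ⟨K, hK⟩ := growth f d c hf hne hup hc hlow
  obtain ⟨δ, hδ, hre⟩ := hre
  have hs2 : ∀ s : ℂ, s.re < 1 → s - 2 ≠ 0 := fun s hs =>
    norm_pos_iff.mp (lt_of_lt_of_le one_pos (one_le_norm s hs))
  set g : ℂ → ℂ := fun z => (f (-z) * (-z - 2) ^ d)⁻¹ with hg
  have hgn : ∀ z : ℂ, ‖g z‖ = (‖f (-z)‖ * ‖-z - 2‖ ^ d)⁻¹ := by
    intro z
    simp only [hg, norm_inv, norm_mul, norm_pow]
  have hgd : DifferentiableOn ℂ g {z : ℂ | -1 < z.re} := by
    have hneg : ∀ z : ℂ, z ∈ {z : ℂ | -1 < z.re} → (-z).re < 1 := by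
      intro z hz
      have : -1 < z.re := hz
      simp only [Complex.neg_re]
      linarith
    refine DifferentiableOn.inv (DifferentiableOn.mul ?_ (by fun_prop)) ?_
    · exact hf.comp (by fun_prop) hneg
    · intro z hz
      exact mul_ne_zero (hne _ (hneg z hz)) (pow_ne_zero _ (hs2 _ (hneg z hz)))
  have hcl : DiffContOnCl ℂ g {z : ℂ | 0 < z.re} := by
    refine DifferentiableOn.diffContOnCl (hgd.mono ?_)
    rw [Complex.closure_setOfPred_lt_re]
    intro z hz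
    have : 0 ≤ z.re := hz
    show -1 < z.re
    linarith
  have hexp : ∃ c' < (2 : ℝ), ∃ B,
      g =O[Bornology.cobounded ℂ ⊓ 𝓟 {z : ℂ | 0 < z.re}] fun z => Real.exp (B * ‖z‖ ^ c') := by
    refine ⟨3 / 2, by norm_num, K, Asymptotics.IsBigO.of_bound c⁻¹ ?_⟩
    rw [eventually_inf_principal]
    filter_upwards [(tendsto_norm_cobounded_atTop (E := ℂ)).eventually_ge_atTop 2] with z hz hz0
    have hz0' : 0 < z.re := hz0
    have h1 := hK (-z) (by simp; linarith) (by simpa using hz)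
    rw [norm_neg] at h1
    rw [hgn, Real.norm_eq_abs, abs_of_pos (Real.exp_pos _)]
    calc (‖f (-z)‖ * ‖-z - 2‖ ^ d)⁻¹ ≤ (c * Real.exp (-(K * ‖z‖ ^ (3 / 2 : ℝ))))⁻¹ :=
          inv_anti₀ (by positivity) h1
      _ = c⁻¹ * Real.exp (K * ‖z‖ ^ (3 / 2 : ℝ)) := by
          rw [mul_inv, Real.exp_neg, inv_inv]
  have hbd : IsBoundedUnder (· ≤ ·) atTop fun x : ℝ => ‖g x‖ := by
    refine ⟨δ⁻¹, ?_⟩
    rw [eventually_map]
    filter_upwards [tendsto_neg_atTop_atBot.eventually hre, eventually_ge_atTop (0 : ℝ)]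
      with x hx hx0
    rw [hgn]
    have h1 : 1 ≤ ‖(-(x : ℂ) - 2 : ℂ)‖ ^ d :=
      one_le_pow₀ (one_le_norm _ (by simp; linarith))
    have h2 : δ ≤ ‖f (-(x : ℂ))‖ := by simpa using hx
    refine inv_anti₀ hδ ?_
    calc δ = δ * 1 := (mul_one δ).symm
      _ ≤ ‖f (-(x : ℂ))‖ * ‖(-(x : ℂ) - 2 : ℂ)‖ ^ d :=
          mul_le_mul h2 h1 zero_le_one (norm_nonneg _)
  have him : ∀ x : ℝ, ‖g (x * Complex.I)‖ ≤ c⁻¹ := by
    intro x
    rw [hgn]
    have h1 := hlow (-x)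
    have e : (((-x : ℝ) : ℂ) * Complex.I) = -((x : ℂ) * Complex.I) := by push_cast; ring
    rw [e] at h1
    exact inv_anti₀ hc h1
  intro s hs
  have key := PhragmenLindelof.right_half_plane_of_bounded_on_real hcl hexp hbd him
    (z := -s) (by simp; linarith)
  rw [hgn, neg_neg] at key
  have hs1 : s.re < 1 := by linarith
  have hpos : 0 < ‖f s‖ * ‖s - 2‖ ^ d :=
    mul_pos (norm_pos_iff.mpr (hne s hs1)) (pow_pos (norm_pos_iff.mpr (hs2 s hs1)) d)
  exact (inv_le_inv₀ hpos hc).mp key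

end Pool.Agent.H195Z.EC
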